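import Pool.Agent.TH45.Gr.Search
import Pool.Agent.H800R3.LTS2

/-!
# The local part of a space which is closed under iterated commutators
-/

set_option autoImplicit false

namespace Pool.Agent.TH45.Gr

open Module Matrix Pool.Agent.H800R3.LTS

attribute [local instance 100] LieRing.ofAssociativeRing

variable {K n : Type*} [Field K] [Fintype n] [DecidableEq n]

theorem br_mono {A : Type*} [Ring A] [Algebra K A] {S T : Submodule K A} (h : S ≤ T) (k : ℕ) :
    br S k ≤ br T k := by
  induction k with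
  | zero => exact h
  | succ k ih =>
    show Submodule.span K _ ≤ Submodule.span K _
    apply Submodule.span_mono
    rintro _ ⟨a, ha, b, hb, rfl⟩
    exact ⟨a, h ha, b, ih hb, rfl⟩

theorem adL_pow_mem {B : Submodule K (Matrix n n K)} {x b : Matrix n n K} (hx : x ∈ B)
    (hb : b ∈ B) (k : ℕ) : (adL x ^ k) b ∈ br B k := by
  induction k with
  | zero => exact hb
  | succ k ih =>
    rw [pow_succ', Module.End.mul_apply, adL_apply]
    exact br_succ_mem hx ih

/-- The local part complements the tangent space of the orbit. -/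
theorem sliceAt_br {B : Submodule K (Matrix n n K)} {m : ℕ} (hm : 0 < m) (hB : br B m ≤ B)
    {x : Matrix n n K} (hx : x ∈ B) : Pool.Agent.H800R3.Slice.SliceAt B (localPart B x) x := by
  have hmaps : ∀ y ∈ B, (adL x ^ m) y ∈ B := fun y hy => hB (adL_pow_mem hx hy m)
  let f : Module.End K B := (adL x ^ m).restrict hmaps
  have hf : ∀ (k : ℕ) (b : B), ((f ^ k) b : Matrix n n K) = (adL x ^ (m * k)) b := by
    intro k
    induction k with
    | zero => intro b; simp
    | succ k ih =>
      intro b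
      rw [pow_succ, Module.End.mul_apply, ih, Nat.mul_succ, pow_add, Module.End.mul_apply]
      rfl
  obtain ⟨k, hk⟩ := (Filter.eventually_atTop.1 f.eventually_isCompl_ker_pow_range_pow)
  have hcompl := hk (k + 1) (Nat.le_succ k)
  intro b hb
  have htop : (⟨b, hb⟩ : B) ∈ LinearMap.ker (f ^ (k + 1)) ⊔ LinearMap.range (f ^ (k + 1)) := by
    rw [hcompl.sup_eq_top]; trivial
  obtain ⟨b0, hb0, b1, ⟨w, rfl⟩, hsum⟩ := Submodule.mem_sup.1 htop
  set w' : B := (f ^ k) w with hw'
  set u : Matrix n n K := (adL x ^ (m - 1)) (w' : Matrix n n K) with hu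
  have huB : u ∈ br B (m - 1) := adL_pow_mem hx w'.2 _
  have h1 : ((f ^ (k + 1)) w : Matrix n n K) = x * u - u * x := by
    rw [pow_succ', Module.End.mul_apply]
    show (adL x ^ m) (w' : Matrix n n K) = _
    obtain ⟨m', rfl⟩ : ∃ m', m = m' + 1 := ⟨m - 1, by omega⟩
    rw [pow_succ', Module.End.mul_apply, adL_apply]
    rfl
  refine ⟨b0, ⟨b0.2, ?_⟩, -u, -u, fun y hy => ?_, ?_⟩
  · apply adL_stable x (k := m * (k + 1))
    rw [← hf, LinearMap.mem_ker.1 hb0]
    rfl
  · have h2 := br_succ_mem hy huB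
    rw [show m - 1 + 1 = m by omega] at h2
    have h3 := hB h2
    convert h3 using 1
    noncomm_ring
  · have h2 : b = (b0 : Matrix n n K) + ((f ^ (k + 1)) w : Matrix n n K) := by
      have := congrArg (fun q : B => (q : Matrix n n K)) hsum
      exact this.symm
    rw [h2, h1]
    noncomm_ring

/-- **Stopping criterion.** -/
theorem stop_br [CharZero K] {B : Submodule K (Matrix n n K)} {m : ℕ} (hm : 0 < m)
    (hB : br B m ≤ B) {x : Matrix n n K} (hx : x ∈ B) (h0 : nilSpace x ≠ ⊥)
    (hnil : ∀ y ∈ localPart B x, ∀ v ∈ nilSpace x, (y ^ Fintype.card n) *ᵥ v = 0) :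
    ∀ b ∈ B, b.det = 0 := by
  refine Pool.Agent.H800R3.Slice.slice inf_le_left hx (sliceAt_br hm hB hx) fun s hs => ?_
  obtain ⟨v, hv, hv0⟩ := Submodule.exists_mem_ne_zero_of_ne_bot h0
  have h1 := hnil (x + s) ((localPart B x).add_mem (self_mem_localPart hx) hs) v hv
  have h2 : ((x + s) ^ Fintype.card n).det = 0 := by
    rw [← Matrix.exists_mulVec_eq_zero_iff]
    exact ⟨v, hv0, h1⟩
  rw [Matrix.det_pow] at h2
  exact eq_zero_of_pow_eq_zero h2

theorem br_engel {B : Submodule K (Matrix n n K)} {x : Matrix n n K} (k : ℕ) :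
    br (localPart B x) k ≤ (LieSubalgebra.engel K x).toSubmodule := by
  have h : ∀ y ∈ localPart B x, y ∈ LieSubalgebra.engel K x := by
    intro y hy
    rw [LieSubalgebra.mem_engel_iff]
    exact ⟨_, by rw [← adL_eq_ad]; exact hy.2⟩
  induction k with
  | zero => exact h
  | succ k ih =>
    show Submodule.span K _ ≤ _
    rw [Submodule.span_le]
    rintro _ ⟨a, ha, b, hb, rfl⟩
    have := (LieSubalgebra.engel K x).lie_mem (h a ha) (ih hb)
    rwa [LieRing.of_associative_ring_bracket] at this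

/-- the local part is closed under iterated commutators -/
theorem br_localPart {B : Submodule K (Matrix n n K)} {m : ℕ} (hB : br B m ≤ B)
    (x : Matrix n n K) : br (localPart B x) m ≤ localPart B x := by
  intro y hy
  refine ⟨hB (br_mono inf_le_left m hy), ?_⟩
  have h1 := br_engel m hy
  have h2 : y ∈ LieSubalgebra.engel K x := h1
  rw [LieSubalgebra.mem_engel_iff] at h2
  obtain ⟨k, hk⟩ := h2
  rw [← adL_eq_ad] at hk
  exact adL_stable x hk

/-- The restriction of a space of matrices to a space of vectors: the endomorphisms of `V` which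
are restrictions of matrices in `S`. -/
def restr (S : Submodule K (Matrix n n K)) (V : Submodule K (n → K)) :
    Submodule K (End K V) where
  carrier := {f | ∃ y ∈ S, ∀ v : V, (f v : n → K) = y *ᵥ (v : n → K)}
  zero_mem' := ⟨0, S.zero_mem, fun v => by rw [Matrix.zero_mulVec]; rfl⟩
  add_mem' := by
    rintro f g ⟨y, hy, hf⟩ ⟨z, hz, hg⟩
    refine ⟨y + z, S.add_mem hy hz, fun v => ?_⟩
    rw [Matrix.add_mulVec, ← hf, ← hg]
    rfl
  smul_mem' := by
    rintro c f ⟨y, hy, hf⟩
    refine ⟨c • y, S.smul_mem c hy, fun v => ?_⟩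
    rw [Matrix.smul_mulVec, ← hf]
    rfl

theorem br_restr_aux {S : Submodule K (Matrix n n K)} {V : Submodule K (n → K)} (k : ℕ) :
    br (A := End K V) (restr S V) k ≤ restr (br S k) V := by
  induction k with
  | zero => exact le_rfl
  | succ k ih =>
    show Submodule.span K _ ≤ _
    rw [Submodule.span_le]
    rintro _ ⟨f, ⟨y, hy, hf⟩, g, hg, rfl⟩
    obtain ⟨z, hz, hg⟩ := ih hg
    refine ⟨y * z - z * y, br_succ_mem hy hz, fun v => ?_⟩
    rw [Matrix.sub_mulVec, ← Matrix.mulVec_mulVec, ← Matrix.mulVec_mulVec, ← hg, ← hf, ← hf, ← hg]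
    rfl

theorem br_restr {S : Submodule K (Matrix n n K)} {V : Submodule K (n → K)} {m : ℕ}
    (h : br S m ≤ S) : br (A := End K V) (restr S V) m ≤ restr S V := by
  refine (br_restr_aux m).trans ?_
  rintro f ⟨y, hy, hf⟩
  exact ⟨y, h hy, hf⟩

theorem restr_pow {V : Submodule K (n → K)} {f : End K V} {y : Matrix n n K}
    (hf : ∀ v : V, (f v : n → K) = y *ᵥ (v : n → K)) (k : ℕ) :
    ∀ v : V, ((f ^ k) v : n → K) = (y ^ k) *ᵥ (v : n → K) := by
  induction k with
  | zero => intro v; rw [pow_zero, pow_zero, Matrix.one_mulVec]; rfl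
  | succ k ih =>
    intro v
    rw [pow_succ, Module.End.mul_apply, ih, hf, Matrix.mulVec_mulVec, ← pow_succ]

theorem restr_nilpotent {V : Submodule K (n → K)} {f : End K V} {y : Matrix n n K}
    (hf : ∀ v : V, (f v : n → K) = y *ᵥ (v : n → K)) :
    IsNilpotent f ↔ ∀ v ∈ V, (y ^ Fintype.card n) *ᵥ v = 0 := by
  constructor
  · rintro ⟨k, hk⟩ v hv
    have h1 := restr_pow hf k ⟨v, hv⟩
    rw [hk] at h1
    exact (mem_nilSpace _ _).1 (ker_pow_stable y h1.symm)
  · intro h
    refine ⟨Fintype.card n, LinearMap.ext fun v => Subtype.ext ?_⟩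
    rw [restr_pow hf]
    exact h v v.2

/-- elements of the local part restrict to the generalised kernel -/
theorem exists_restr {B : Submodule K (Matrix n n K)} {x y : Matrix n n K}
    (hy : y ∈ localPart B x) : ∃ f ∈ restr (localPart B x) (nilSpace x),
      ∀ v : nilSpace x, (f v : n → K) = y *ᵥ (v : n → K) :=
  ⟨(Matrix.mulVecLin y).restrict fun _ hv => mapsTo_nilSpace hy.2 hv, ⟨y, hy, fun _ => rfl⟩,
    fun _ => rfl⟩

end Pool.Agent.TH45.Gr
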