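import Pool.Agent.TH45.Gr.Kl

/-!
# Iterated commutators of a space
-/

set_option autoImplicit false

namespace Pool.Agent.TH45.Gr

section br

variable {K A : Type*} [Field K] [Ring A] [Algebra K A]

/-- `br T k` is the span of the `(k+1)`-fold commutators `[t_0, [t_1, [… , t_k]]]` of elements of
`T`. -/
def br (T : Submodule K A) : ℕ → Submodule K A
  | 0 => T
  | k + 1 => Submodule.span K {x | ∃ a ∈ T, ∃ b ∈ br T k, x = a * b - b * a}

theorem br_succ_mem {T : Submodule K A} {k : ℕ} {a b : A} (ha : a ∈ T) (hb : b ∈ br T k) :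
    a * b - b * a ∈ br T (k + 1) :=
  Submodule.subset_span ⟨a, ha, b, hb, rfl⟩

theorem br_lie {T : Submodule K A} (i : ℕ) : ∀ (j : ℕ) {a b : A}, a ∈ br T i → b ∈ br T j →
    a * b - b * a ∈ br T (i + j + 1) := by
  induction i with
  | zero => intro j a b ha hb; rw [zero_add]; exact br_succ_mem ha hb
  | succ i ih =>
    intro j a b ha hb
    unfold br at ha
    induction ha using Submodule.span_induction with
    | mem a ha =>
      obtain ⟨c, hc, d, hd, rfl⟩ := ha
      have h1 : (c * d - d * c) * b - b * (c * d - d * c) =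
          (c * (d * b - b * d) - (d * b - b * d) * c) -
            (d * (c * b - b * c) - (c * b - b * c) * d) := by noncomm_ring
      rw [h1]
      refine Submodule.sub_mem _ ?_ ?_
      · have := br_succ_mem hc (ih j hd hb)
        rwa [show i + 1 + j + 1 = i + j + 1 + 1 by omega]
      · have := ih (j + 1) hd (br_succ_mem hc hb)
        rwa [show i + 1 + j + 1 = i + (j + 1) + 1 by omega]
    | zero => simp
    | add x y _ _ hx hy =>
      convert Submodule.add_mem _ hx hy using 1
      noncomm_ring
    | smul t x _ hx =>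
      rw [mul_smul_comm, smul_mul_assoc, ← smul_sub]
      exact Submodule.smul_mem _ t hx

/-- periodicity of the iterated commutators -/
theorem br_period {T : Submodule K A} {m : ℕ} (h : br T m ≤ T) (k : ℕ) :
    br T (m + k) ≤ br T k := by
  induction k with
  | zero => exact h
  | succ k ih =>
    show Submodule.span K _ ≤ _
    rw [Submodule.span_le]
    rintro _ ⟨a, ha, b, hb, rfl⟩
    exact br_succ_mem ha (ih hb)

theorem br_period_mul {T : Submodule K A} {m : ℕ} (h : br T m ≤ T) (j k : ℕ) :
    br T (m * j + k) ≤ br T k := by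
  induction j with
  | zero => rw [mul_zero, zero_add]
  | succ j ih =>
    refine le_trans ?_ ih
    rw [show m * (j + 1) + k = m + (m * j + k) by ring]
    exact br_period h _

theorem br_double {T : Submodule K A} {m : ℕ} (h : br T m ≤ T) (j : ℕ) : br T (m * j) ≤ T := by
  have := br_period_mul h j 0
  rwa [add_zero] at this

/-- the Lie algebra generated by `T` -/
def Lt (T : Submodule K A) (m : ℕ) : Submodule K A := ⨆ k : Fin m, br T k

theorem br_le_Lt {T : Submodule K A} {m k : ℕ} (hk : k < m) : br T k ≤ Lt T m :=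
  le_iSup (fun k : Fin m => br T k) ⟨k, hk⟩

theorem br_le_Lt' {T : Submodule K A} {m : ℕ} (hm : 0 < m) (h : br T m ≤ T) (k : ℕ) :
    br T k ≤ Lt T m := by
  have h1 := br_period_mul h (k / m) (k % m)
  rw [Nat.div_add_mod] at h1
  exact h1.trans (br_le_Lt (Nat.mod_lt _ hm))

theorem Lt_closed {T : Submodule K A} {m : ℕ} (hm : 0 < m) (h : br T m ≤ T) :
    ∀ a ∈ Lt T m, ∀ b ∈ Lt T m, a * b - b * a ∈ Lt T m := by
  intro a ha b hb
  unfold Lt at ha hb
  induction ha using Submodule.iSup_induction' with
  | mem i a ha =>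
    induction hb using Submodule.iSup_induction' with
    | mem j b hb => exact br_le_Lt' hm h _ (br_lie _ _ ha hb)
    | zero => simp
    | add x y _ _ hx hy =>
      convert Submodule.add_mem _ hx hy using 1
      noncomm_ring
  | zero => simp
  | add x y _ _ hx hy =>
    convert Submodule.add_mem _ hx hy using 1
    noncomm_ring

theorem br_le_adjoin {T : Submodule K A} (k : ℕ) {a : A} (ha : a ∈ br T k) :
    a ∈ Algebra.adjoin K (T : Set A) := by
  induction k generalizing a with
  | zero => exact Algebra.subset_adjoin ha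
  | succ k ih =>
    unfold br at ha
    induction ha using Submodule.span_induction with
    | mem a ha =>
      obtain ⟨c, hc, d, hd, rfl⟩ := ha
      have h1 : c ∈ Algebra.adjoin K (T : Set A) := Algebra.subset_adjoin hc
      exact Subalgebra.sub_mem _ (Subalgebra.mul_mem _ h1 (ih hd))
        (Subalgebra.mul_mem _ (ih hd) h1)
    | zero => exact Subalgebra.zero_mem _
    | add x y _ _ hx hy => exact Subalgebra.add_mem _ hx hy
    | smul t x _ hx => exact Subalgebra.smul_mem _ hx t

theorem Lt_le_adjoin {T : Submodule K A} {m : ℕ} {a : A} (ha : a ∈ Lt T m) :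
    a ∈ Algebra.adjoin K (T : Set A) := by
  unfold Lt at ha
  induction ha using Submodule.iSup_induction' with
  | mem i a ha => exact br_le_adjoin _ ha
  | zero => exact Subalgebra.zero_mem _
  | add x y _ _ hx hy => exact Subalgebra.add_mem _ hx hy

theorem adjoin_Lt {T : Submodule K A} {m : ℕ} (hm : 0 < m) :
    Algebra.adjoin K (Lt T m : Set A) = Algebra.adjoin K (T : Set A) := by
  apply le_antisymm
  · exact Algebra.adjoin_le fun a ha => Lt_le_adjoin ha
  · exact Algebra.adjoin_mono (br_le_Lt (T := T) hm)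

/-- degrees -/
theorem br_deg {T : Submodule K A} {ι : Type*} [AddCommMonoidWithOne ι] {E : ι → Submodule K A}
    (hT : T ≤ E 1) (hmul : ∀ i j, ∀ a ∈ E i, ∀ b ∈ E j, a * b ∈ E (i + j)) (k : ℕ) :
    br T k ≤ E ((k + 1 : ℕ) : ι) := by
  induction k with
  | zero => simpa using! hT
  | succ k ih =>
    show Submodule.span K _ ≤ _
    rw [Submodule.span_le]
    rintro _ ⟨a, ha, b, hb, rfl⟩
    have h1 := hmul 1 _ a (hT ha) b (ih hb)
    have h2 := hmul _ 1 b (ih hb) a (hT ha)
    have e1 : (1 : ι) + ((k + 1 : ℕ) : ι) = ((k + 1 + 1 : ℕ) : ι) := by push_cast; abel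
    have e2 : ((k + 1 : ℕ) : ι) + (1 : ι) = ((k + 1 + 1 : ℕ) : ι) := by push_cast; abel
    rw [e1] at h1
    rw [e2] at h2
    exact Submodule.sub_mem _ h1 h2

end br

end Pool.Agent.TH45.Gr
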