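import Mathlib

/-!
# Cartan's lemma for spaces of endomorphisms closed under commutators
-/

set_option autoImplicit false

namespace Pool.Agent.TH45.Gr

open Algebra Function LieAlgebra LinearMap Module Module.End Polynomial
open scoped TensorProduct

attribute [local instance 100] LieRing.ofAssociativeRing

theorem exists_polynomial_aux
    {ι R K : Type*} [Finite ι] [CommRing R] [Field K] [Algebra R K]
    {E : Submodule R K} (a : ι → K) (ha : ∀ i, a i ∈ E) (f : E →+ R) :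
    ∃ r : K[X], ∀ i j, r.eval (a i - a j) =
      algebraMap R K (f ⟨a i, ha i⟩) - algebraMap R K (f ⟨a j, ha j⟩) := by
  suffices ∀ (ij kl : ι × ι) (hij : a ij.1 - a ij.2 = a kl.1 - a kl.2),
      algebraMap R K (f ⟨a ij.1, ha ij.1⟩) - algebraMap R K (f ⟨a ij.2, ha ij.2⟩) =
      algebraMap R K (f ⟨a kl.1, ha kl.1⟩) - algebraMap R K (f ⟨a kl.2, ha kl.2⟩) by
    obtain ⟨r, hr⟩ := (Polynomial.exists_eval_eq_iff _ _).mpr this
    exact ⟨r, fun i j ↦ hr (i, j)⟩
  rintro ⟨i, j⟩ ⟨k, l⟩ hij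
  have heq : (⟨a i, ha i⟩ - ⟨a j, ha j⟩ : E) = ⟨a k, ha k⟩ - ⟨a l, ha l⟩ := Subtype.ext hij
  rw [← (algebraMap R K).map_sub, ← (algebraMap R K).map_sub, ← map_sub, ← map_sub, heq]

/-- Cartan's lemma: `x` in a commutator closed space `L` of endomorphisms is nilpotent if
`trace (x y) = 0` for all `y` normalising `L`. -/
theorem cartan_aux {K M : Type*} [Field K] [CharZero K] [IsAlgClosed K]
    [AddCommGroup M] [Module K M] [FiniteDimensional K M]
    (L : Submodule K (End K M)) (hL : ∀ a ∈ L, ∀ b ∈ L, a * b - b * a ∈ L)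
    {x : End K M} (hx : x ∈ L)
    (htr : ∀ y : End K M, (∀ z ∈ L, y * z - z * y ∈ L) → trace K M (x * y) = 0) :
    IsNilpotent x := by
  obtain ⟨n, hn_adj, s, hns, hn_nil, hs_ss, hX_ns⟩ := x.exists_isNilpotent_isSemisimple
  replace hns : Commute n s :=
    commute_of_mem_adjoin_singleton_of_commute hns (commute_of_mem_adjoin_self hn_adj).symm
  suffices s = 0 by aesop
  classical
  let eigenDecomp := DirectSum.isInternal_submodule_of_iSupIndep_of_iSup_eq_top
    s.eigenspaces_iSupIndep hs_ss.iSup_eigenspace_eq_top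
  let I := (ν : K) × Fin (finrank K (s.eigenspace ν))
  let v : Basis I K M := eigenDecomp.collectedBasis fun μ ↦ finBasis K (s.eigenspace μ)
  have : Fintype I := FiniteDimensional.fintypeBasisIndex v
  let μ : I → K := Sigma.fst
  have hsv (i : I) : s (v i) = μ i • v i :=
    mem_eigenspace_iff.mp (eigenDecomp.collectedBasis_mem _ i)
  let E : Submodule ℚ K := Submodule.span ℚ (Set.range μ)
  have hμ (i : I) : μ i ∈ E := Submodule.subset_span (Set.mem_range_self i)
  suffices ∀ f : Dual ℚ E, f = 0 by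
    suffices ∀ ν, s.HasEigenvalue ν → ν = 0 from hs_ss.eq_zero_iff_forall_eigenvalue.mpr this
    intro ν hν
    have : Nontrivial (s.eigenspace ν) :=
      Submodule.nontrivial_iff_ne_bot.mpr (hasEigenvalue_iff.mp hν)
    replace hν : ν ∈ E := Submodule.subset_span ⟨⟨ν, ⟨0, finrank_pos⟩⟩, rfl⟩
    have : Subsingleton E := (subsingleton_dual_iff ℚ).mp ⟨by aesop⟩
    simpa using! Subsingleton.elim (⟨ν, hν⟩ : E) 0
  intro f
  suffices ∀ i, f ⟨μ i, hμ i⟩ = 0 by
    rw [Submodule.linearMap_eq_zero_iff_of_eq_span f rfl]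
    rintro ⟨-, ⟨i, rfl⟩⟩
    exact this i
  suffices ∑ i, f ⟨μ i, hμ i⟩ ^ 2 = 0 from fun i ↦ eq_zero_of_pow_eq_zero <|
    (Finset.sum_eq_zero_iff_of_nonneg (fun _ _ ↦ sq_nonneg _)).mp this i (Finset.mem_univ _)
  suffices ∑ i, (f ⟨μ i, hμ i⟩) • (⟨μ i, hμ i⟩ : E) = 0 by
    simpa only [map_sum, map_zero, map_smul, sq] using! f.congr_arg this
  let fμ (i : I) : K := f ⟨μ i, hμ i⟩
  suffices ∑ i, fμ i * μ i = 0 by simp [Subtype.ext_iff, fμ, ← this, smul_def]
  suffices ∃ y : End K M, trace K M (x * y) = 0 ∧ trace K M (x * y) = ∑ i, fμ i * μ i by grind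
  let y : End K M := (Matrix.diagonal fμ).toLin v v
  have hyv (i : I) : y (v i) = fμ i • v i :=
    mem_eigenspace_iff.mp (hasEigenvector_toLin_diagonal fμ i v).1
  have hy_range (z : End K M) (hz : z ∈ L) : ⁅y, z⁆ ∈ L := by
    obtain ⟨q, hq⟩ : ∃ q : K[X], q.aeval (ad K _ x) = ad K _ y := by
      obtain ⟨r, hr⟩ : ∃ r : K[X], r.aeval (ad K _ s) = ad K _ y := by
        have h₁ (i j : I) : ⁅s, v.end (i, j)⁆ = (μ i - μ j) • v.end (i, j) := by
          rw [v.lie_end_of_apply_eq_smul μ s hsv]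
        have h₂ (i j : I) : ⁅y, v.end (i, j)⁆ = (fμ i - fμ j) • v.end (i, j) := by
          rw [v.lie_end_of_apply_eq_smul fμ y hyv]
        obtain ⟨r, hr⟩ := exists_polynomial_aux μ hμ f
        refine ⟨r, v.end.ext fun ⟨i, j⟩ ↦ ?_⟩
        rw [ad_apply, aeval_apply_of_mem_apply_eq_smul (h₁ i j), hr, h₂]
        rfl
      obtain ⟨p, hp⟩ : ∃ p : K[X], p.aeval (ad K _ x) = ad K _ s :=
        adjoin_mem_exists_aeval K _ <| by
          simpa only [← hX_ns] using! ad_mem_adjoin_of_isSemisimple hns hn_nil hs_ss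
      exact ⟨r.comp p, by rw [aeval_comp, hp, hr]⟩
    rw [← ad_apply K, ← hq]
    apply q.aeval_apply_smul_mem_of_le_comap hz _ ?_
    intro w hw
    exact hL x hx w hw
  have hny_comm : Commute n y := by
    suffices y ∈ K[s] from commute_of_mem_adjoin_singleton_of_commute this hns
    rw [adjoin_singleton_eq_range_aeval]
    obtain ⟨q, hq⟩ : ∃ q : K[X], ∀ i, q.eval (μ i) = fμ i :=
      (Polynomial.exists_eval_eq_iff μ fμ).mpr <| by aesop
    refine ⟨q, v.ext fun i ↦ ?_⟩
    rw [AlgHom.toRingHom_eq_coe, RingHom.coe_coe, aeval_apply_of_mem_apply_eq_smul (hsv i), hq, hyv]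
  suffices trace K M (x * y) = ∑ i, fμ i * μ i from
    ⟨y, htr y hy_range, this⟩
  have htr_n : trace K M (n * y) = 0 :=
    (isNilpotent_trace_of_isNilpotent (hny_comm.isNilpotent_mul_right hn_nil)).eq_zero
  have htr_s : trace K M (s * y) = ∑ i, fμ i * μ i := by
    rw [trace_eq_matrix_trace _ v, Matrix.trace]
    exact Finset.sum_congr rfl <| by simp [toMatrix_apply, hyv, hsv]
  rw [hX_ns, add_mul, map_add, htr_n, htr_s, zero_add]

end Pool.Agent.TH45.Gr
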