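import Mathlib

/-!
# A slice theorem for the traces of powers
-/

set_option autoImplicit false

namespace Pool.Agent.TH45.Gr

open Matrix Polynomial Finset

section der

variable {A : Type*} [CommRing A] {n : Type*} [Fintype n] [DecidableEq n]

theorem map_derivative_mul (M N : Matrix n n A[X]) :
    (M * N).map derivative = M.map derivative * N + M * N.map derivative := by
  refine Matrix.ext fun i j => ?_
  rw [Matrix.map_apply, Matrix.add_apply, Matrix.mul_apply, Matrix.mul_apply, Matrix.mul_apply,
    map_sum, ← Finset.sum_add_distrib]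
  refine Finset.sum_congr rfl fun k _ => ?_
  rw [derivative_mul, Matrix.map_apply, Matrix.map_apply]

theorem trace_map_derivative (M : Matrix n n A[X]) :
    (M.map derivative).trace = derivative M.trace := by
  unfold Matrix.trace
  rw [map_sum]
  rfl

theorem trace_der_pow (M : Matrix n n A[X]) (k : ℕ) : ∀ j : ℕ,
    ((M ^ (k + 1)).map derivative * M ^ j).trace =
      ((k + 1 : ℕ) : A[X]) * (M ^ (k + j) * M.map derivative).trace := by
  induction k with
  | zero =>
    intro j
    rw [zero_add, pow_one, zero_add, Nat.cast_one, one_mul, Matrix.trace_mul_comm]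
  | succ k ih =>
    intro j
    rw [pow_succ M (k + 1), map_derivative_mul, Matrix.add_mul, Matrix.trace_add,
      Matrix.mul_assoc, ← pow_succ' M j, ih (j + 1), Matrix.mul_assoc (M ^ (k + 1)),
      Matrix.trace_mul_comm (M ^ (k + 1)), Matrix.mul_assoc, ← pow_add,
      Matrix.trace_mul_comm (M.map derivative)]
    rw [show k + (j + 1) = k + 1 + j by omega, show j + (k + 1) = k + 1 + j by omega]
    push_cast
    ring

theorem derivative_trace_pow (M : Matrix n n A[X]) (k : ℕ) :
    derivative (M ^ (k + 1)).trace = ((k + 1 : ℕ) : A[X]) * (M ^ k * M.map derivative).trace := by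
  have := trace_der_pow M k 0
  rw [pow_zero, Matrix.mul_one, add_zero] at this
  rw [← this, trace_map_derivative]

end der

section poly

variable {K : Type*} [Field K] {n : Type*} [Fintype n] [DecidableEq n]

theorem exists_poly_tr (z a : Matrix n n K[X]) (k j : ℕ) :
    ∃ g : K[X], (∀ c : K, g.eval c = (((z + C c • a) ^ (k + 1)).trace).coeff j) ∧
      g.coeff 1 = (((k + 1 : ℕ) : K[X]) * (z ^ k * a).trace).coeff j := by
  classical
  let Z : Matrix n n K[X][X] := z.map C + (X : K[X][X]) • a.map C
  let G : K[X][X] := (Z ^ (k + 1)).trace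
  have hmapZ : ∀ c : K[X], Z.map (evalRingHom c) = z + c • a := by
    intro c
    refine Matrix.ext fun i k => ?_
    show eval c (C (z i k) + X * C (a i k)) = z i k + c * a i k
    rw [eval_add, eval_C, eval_mul, eval_X, eval_C]
  refine ⟨∑ k ∈ Finset.range (G.natDegree + 2), C ((G.coeff k).coeff j) * X ^ k, fun c => ?_, ?_⟩
  · have h1 : ((z + C c • a) ^ (k + 1)).trace = G.eval (C c) := by
      rw [← hmapZ, ← RingHom.mapMatrix_apply, ← map_pow]
      exact (AddMonoidHom.map_trace (evalRingHom (C c : K[X])).toAddMonoidHom (Z ^ (k + 1))).symm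
    rw [h1, Polynomial.eval_eq_sum_range' (p := G) (n := G.natDegree + 2) (by omega),
      eval_finsetSum, finsetSum_coeff]
    refine Finset.sum_congr rfl fun k _ => ?_
    rw [eval_mul, eval_C, eval_pow, eval_X, ← C_pow, coeff_mul_C]
  · have h2 : G.coeff 1 = ((k + 1 : ℕ) : K[X]) * (z ^ k * a).trace := by
      have hd : (derivative G).eval 0 = G.coeff 1 := by
        rw [← coeff_zero_eq_eval_zero, coeff_derivative]
        simp
      have hZ' : Z.map derivative = a.map C := by
        ext i k : 2
        simp [Z, derivative_mul]
      rw [← hd, derivative_trace_pow, hZ', eval_mul]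
      congr 1
      · rw [eval_natCast]
      · have ha : (a.map (C : K[X] →+* K[X][X])).map (evalRingHom (0 : K[X])) = a := by
          ext i k : 2
          simp
        have ht := AddMonoidHom.map_trace (evalRingHom (0 : K[X])).toAddMonoidHom (Z ^ k * a.map C)
        refine ht.trans ?_
        congr 1
        show ((Z ^ k * a.map C).map (evalRingHom (0 : K[X]))) = _
        rw [Matrix.map_mul, ha, ← RingHom.mapMatrix_apply, map_pow, RingHom.mapMatrix_apply, hmapZ,
          zero_smul, add_zero]
    rw [finsetSum_coeff]
    rw [Finset.sum_eq_single 1]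
    · rw [coeff_C_mul, coeff_X_pow, h2]
      simp
    · intro k _ hk
      rw [coeff_C_mul, coeff_X_pow, if_neg (Ne.symm hk), mul_zero]
    · intro h
      exact absurd (Finset.mem_range.2 (by omega)) h

variable [CharZero K]

theorem coeff_zero_tr (z a : Matrix n n K[X]) (k j : ℕ)
    (h : ∀ c : K, (((z + C c • a) ^ (k + 1)).trace).coeff j = 0) :
    (((k + 1 : ℕ) : K[X]) * (z ^ k * a).trace).coeff j = 0 := by
  obtain ⟨g, hg, hg1⟩ := exists_poly_tr z a k j
  have : g = 0 := by
    refine Polynomial.eq_zero_of_infinite_isRoot g ?_
    refine Set.Infinite.mono (s := Set.univ) ?_ Set.infinite_univ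
    intro c _
    show g.eval c = 0
    rw [hg]
    exact h c
  subst this
  rw [← hg1, coeff_zero]

omit [CharZero K] in
/-- coefficients of the powers of a pencil are in the algebra generated by its ends -/
theorem coeff_pencil (A : Subalgebra K (Matrix n n K)) {x b : Matrix n n K} (hx : x ∈ A)
    (hb : b ∈ A) (k : ℕ) : ∀ j : ℕ,
      (((x.map C : Matrix n n K[X]) + (X : K[X]) • b.map C) ^ k).map (fun p => p.coeff j) ∈ A := by
  induction k with
  | zero =>
    intro j
    rw [pow_zero]
    by_cases hj : j = 0
    · subst hj
      convert A.one_mem using 1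
      ext p q : 2
      by_cases hpq : p = q
      · subst hpq; simp
      · simp [hpq]
    · convert A.zero_mem using 1
      ext p q : 2
      by_cases hpq : p = q
      · subst hpq
        simp [coeff_one, Ne.symm hj, hj]
      · simp [hpq]
  | succ k ih =>
    intro j
    set z := (x.map C : Matrix n n K[X]) + (X : K[X]) • b.map C with hz
    have key : (z ^ (k + 1)).map (fun p => p.coeff j) =
        (z ^ k).map (fun p => p.coeff j) * x +
          (if j = 0 then 0 else (z ^ k).map (fun p => p.coeff (j - 1))) * b := by
      refine Matrix.ext fun p q => ?_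
      rw [Matrix.map_apply, pow_succ, Matrix.mul_apply, finsetSum_coeff, Matrix.add_apply,
        Matrix.mul_apply, Matrix.mul_apply, ← Finset.sum_add_distrib]
      refine Finset.sum_congr rfl fun r _ => ?_
      have h1 : z r q = C (x r q) + X * C (b r q) := rfl
      rw [h1, mul_add, coeff_add, coeff_mul_C, Matrix.map_apply]
      congr 1
      rw [← mul_assoc, coeff_mul_C]
      congr 1
      rcases Nat.eq_zero_or_pos j with hj | hj
      · subst hj
        simp
      · rw [if_neg hj.ne', Matrix.map_apply]
        obtain ⟨i, rfl⟩ : ∃ i, j = i + 1 := ⟨j - 1, by omega⟩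
        rw [coeff_mul_X, Nat.add_sub_cancel]
    rw [key]
    refine A.add_mem (A.mul_mem (ih j) hx) (A.mul_mem ?_ hb)
    split_ifs
    · exact A.zero_mem
    · exact ih _

/-- **Slice theorem for traces of powers.** -/
theorem slice_trace (T : Submodule K (Matrix n n K)) (S : Matrix n n K → Prop)
    (hS : ∀ s, S s → ∀ a ∈ Algebra.adjoin K (T : Set (Matrix n n K)), (a * s).trace = 0)
    {x : Matrix n n K} (hx : x ∈ T)
    (hdec : ∀ b ∈ T, ∃ u s : Matrix n n K, S s ∧ (∀ y ∈ T, u * y - y * u ∈ T) ∧
      b = (u * x - x * u) + s) (k : ℕ)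
    (h0 : (x ^ (k + 1)).trace = 0) :
    ∀ b ∈ T, (b ^ (k + 1)).trace = 0 := by
  have key : ∀ j : ℕ, ∀ b ∈ T,
      (((((x.map C : Matrix n n K[X]) + (X : K[X]) • b.map C)) ^ (k + 1)).trace).coeff j = 0 := by
    intro j
    induction j with
    | zero =>
      intro b _
      rw [coeff_zero_eq_eval_zero]
      have ht := AddMonoidHom.map_trace (evalRingHom (0 : K)).toAddMonoidHom
        (((x.map C : Matrix n n K[X]) + (X : K[X]) • b.map C) ^ (k + 1))
      refine ht.trans ?_
      have hz : ((x.map C : Matrix n n K[X]) + (X : K[X]) • b.map C).map (evalRingHom (0 : K)) =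
          x := by
        refine Matrix.ext fun i k => ?_
        show eval 0 (C (x i k) + X * C (b i k)) = x i k
        rw [eval_add, eval_C, eval_mul, eval_X, zero_mul, add_zero]
      show ((((x.map C : Matrix n n K[X]) + (X : K[X]) • b.map C) ^ (k + 1)).map
        (evalRingHom (0 : K))).trace = 0
      rw [← RingHom.mapMatrix_apply, map_pow, RingHom.mapMatrix_apply, hz]
      exact h0
    | succ j ih =>
      intro b hb
      set z : Matrix n n K[X] := (x.map C : Matrix n n K[X]) + (X : K[X]) • b.map C with hz
      obtain ⟨u, s, hs, hu, hbs⟩ := hdec b hb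
      have hd : z.map derivative = b.map C := by
        refine Matrix.ext fun i k => ?_
        have : z i k = C (x i k) + X * C (b i k) := rfl
        rw [Matrix.map_apply, Matrix.map_apply, this, derivative_add, derivative_C, zero_add,
          derivative_mul, derivative_X, derivative_C, mul_zero, add_zero, one_mul]
      have hexp : b.map C = (u.map C * z - z * u.map C) +
          (s.map C - (X : K[X]) • (u * b - b * u).map C) := by
        have h1 : u.map C * z = (u * x).map C + (X : K[X]) • (u * b).map C := by
          rw [hz, Matrix.mul_add, Matrix.mul_smul, Matrix.map_mul, Matrix.map_mul]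
        have h2 : z * u.map C = (x * u).map C + (X : K[X]) • (b * u).map C := by
          rw [hz, Matrix.add_mul, Matrix.smul_mul, Matrix.map_mul, Matrix.map_mul]
        have h3 : (u * x).map (C : K →+* K[X]) - (x * u).map C = b.map C - s.map C := by
          have h4 : u * x - x * u = b - s := by rw [hbs]; abel
          refine Matrix.ext fun i k => ?_
          have h5 := congrFun (congrFun h4 i) k
          show C ((u * x) i k) - C ((x * u) i k) = C (b i k) - C (s i k)
          rw [← C_sub, ← C_sub]
          exact congrArg C h5
        have h5 : (u * b - b * u).map (C : K →+* K[X]) = (u * b).map C - (b * u).map C := by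
          refine Matrix.ext fun i k => ?_
          show C ((u * b - b * u) i k) = C ((u * b) i k) - C ((b * u) i k)
          rw [← C_sub]
          rfl
        have h6 : b.map (C : K →+* K[X]) = ((u * x).map (C : K →+* K[X]) - (x * u).map C) +
            s.map C := by rw [h3]; abel
        rw [h1, h2, h5, smul_sub]
        conv_lhs => rw [h6]
        abel
      have e1 : (z ^ k * (u.map C * z - z * u.map C)).trace = 0 := by
        rw [Matrix.mul_sub, Matrix.trace_sub, sub_eq_zero, ← Matrix.mul_assoc, ← Matrix.mul_assoc,
          Matrix.trace_mul_comm (z ^ k * u.map C), ← Matrix.mul_assoc, ← pow_succ, ← pow_succ']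
      have e2 : ((z ^ k * s.map C).trace).coeff j = 0 := by
        have h1 : ((z ^ k * s.map C).trace).coeff j =
            ((z ^ k).map (fun p => p.coeff j) * s).trace := by
          unfold Matrix.trace
          rw [finsetSum_coeff]
          refine Finset.sum_congr rfl fun i _ => ?_
          rw [Matrix.diag_apply, Matrix.diag_apply, Matrix.mul_apply, Matrix.mul_apply,
            finsetSum_coeff]
          refine Finset.sum_congr rfl fun r _ => ?_
          rw [Matrix.map_apply, Matrix.map_apply, coeff_mul_C]
        rw [h1]
        exact hS s hs _ (coeff_pencil _ (Algebra.subset_adjoin hx) (Algebra.subset_adjoin hb) k j)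
      have e3 : (((k + 1 : ℕ) : K[X]) * (z ^ k * ((X : K[X]) • (u * b - b * u).map C)).trace).coeff j
          = 0 := by
        refine coeff_zero_tr z _ k j fun c => ?_
        have : z + C c • ((X : K[X]) • (u * b - b * u).map C : Matrix n n K[X]) =
            x.map C + (X : K[X]) • (b + c • (u * b - b * u)).map C := by
          refine Matrix.ext fun i k => ?_
          show C (x i k) + X * C (b i k) + C c * (X * C ((u * b - b * u) i k)) =
            C (x i k) + X * C ((b + c • (u * b - b * u)) i k)
          simp only [Matrix.add_apply, Matrix.smul_apply, smul_eq_mul, C_add, C_mul]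
          ring
        rw [this]
        exact ih _ (T.add_mem hb (T.smul_mem c (hu b hb)))
      have hmain : (derivative (z ^ (k + 1)).trace).coeff j = 0 := by
        rw [derivative_trace_pow, hd, hexp, Matrix.mul_add, Matrix.trace_add, e1, zero_add,
          Matrix.mul_sub, Matrix.trace_sub, mul_sub, coeff_sub, e3, sub_zero,
          ← C_eq_natCast, coeff_C_mul, e2, mul_zero]
      rw [coeff_derivative] at hmain
      have hm : ((j : K) + 1) ≠ 0 := by exact_mod_cast Nat.succ_ne_zero j
      exact (mul_eq_zero.1 hmain).resolve_right hm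
  intro b hb
  have h1 : ((((x.map C : Matrix n n K[X]) + (X : K[X]) • (b - x).map C)) ^ (k + 1)).trace = 0 := by
    ext m
    rw [coeff_zero]
    exact key m (b - x) (T.sub_mem hb hx)
  have ht := AddMonoidHom.map_trace (evalRingHom (1 : K)).toAddMonoidHom
    (((x.map C : Matrix n n K[X]) + (X : K[X]) • (b - x).map C) ^ (k + 1))
  rw [h1, map_zero] at ht
  have hz : ((x.map C : Matrix n n K[X]) + (X : K[X]) • (b - x).map C).map (evalRingHom (1 : K)) =
      b := by
    refine Matrix.ext fun i k => ?_
    show eval 1 (C (x i k) + X * C (b i k - x i k)) = b i k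
    rw [eval_add, eval_C, eval_mul, eval_X, eval_C]
    ring
  have h2 : ((((x.map C : Matrix n n K[X]) + (X : K[X]) • (b - x).map C) ^ (k + 1)).map
      (evalRingHom (1 : K))) = b ^ (k + 1) := by
    rw [← RingHom.mapMatrix_apply, map_pow, RingHom.mapMatrix_apply, hz]
  rw [← h2]
  exact ht.symm

end poly

end Pool.Agent.TH45.Gr
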