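import Pool.Agent.TH45.Gr.Br
import Pool.Agent.TH45.Gr.SliceTr
import Pool.Agent.W457.T4

/-!
# Critical nilpotent elements of homogeneous components of graded Lie algebras
-/

set_option autoImplicit false

namespace Pool.Agent.TH45.Gr

open Module

section slice

variable {K W : Type*} [Field K] [CharZero K] [AddCommGroup W] [Module K W]
  [FiniteDimensional K W]

theorem slice_end (T : Submodule K (End K W)) (S : End K W → Prop)
    (hS : ∀ s, S s → ∀ a ∈ Algebra.adjoin K (T : Set (End K W)), LinearMap.trace K W (a * s) = 0)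
    {x : End K W} (hx : x ∈ T)
    (hdec : ∀ b ∈ T, ∃ u s : End K W, S s ∧ (∀ y ∈ T, u * y - y * u ∈ T) ∧
      b = (u * x - x * u) + s) (h0 : ∀ k : ℕ, LinearMap.trace K W (x ^ (k + 1)) = 0) :
    ∀ b ∈ T, ∀ k : ℕ, LinearMap.trace K W (b ^ (k + 1)) = 0 := by
  intro b hb k
  let e : End K W ≃ₐ[K] Matrix (Fin (finrank K W)) (Fin (finrank K W)) K :=
    LinearMap.toMatrixAlgEquiv (Module.finBasis K W)
  have htr : ∀ f : End K W, LinearMap.trace K W f = (e f).trace := fun f =>
    LinearMap.trace_eq_matrix_trace K (Module.finBasis K W) f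
  have hadj : ∀ a, e a ∈ Algebra.adjoin K ((T.map e.toLinearMap : Submodule K _) :
      Set (Matrix (Fin (finrank K W)) (Fin (finrank K W)) K)) →
      a ∈ Algebra.adjoin K (T : Set (End K W)) := by
    intro a ha
    have h1 : ((T.map e.toLinearMap : Submodule K _) :
        Set (Matrix (Fin (finrank K W)) (Fin (finrank K W)) K)) =
        (e : End K W →ₐ[K] _) '' (T : Set (End K W)) := rfl
    rw [h1, ← AlgHom.map_adjoin] at ha
    obtain ⟨a', ha', h2⟩ := ha
    rwa [← e.injective h2]
  have := slice_trace (T.map e.toLinearMap) (fun s => S (e.symm s)) ?_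
    (x := e x) ⟨x, hx, rfl⟩ ?_ k ?_ (e b) ⟨b, hb, rfl⟩
  · rw [htr, map_pow]
    exact this
  · intro s hs a ha
    have h1 := hS _ hs (e.symm a) (hadj _ (by rwa [AlgEquiv.apply_symm_apply]))
    rw [htr, map_mul, AlgEquiv.apply_symm_apply, AlgEquiv.apply_symm_apply] at h1
    exact h1
  · rintro _ ⟨b, hb, rfl⟩
    obtain ⟨u, s, hs, hu, hbs⟩ := hdec b hb
    refine ⟨e u, e s, by rwa [AlgEquiv.symm_apply_apply], ?_, ?_⟩
    · rintro _ ⟨y, hy, rfl⟩
      refine ⟨u * y - y * u, hu y hy, ?_⟩
      show e (u * y - y * u) = e u * e y - e y * e u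
      rw [map_sub, map_mul, map_mul]
    · show e b = _
      rw [hbs, map_add, map_sub, map_mul, map_mul]
  · rw [← map_pow, ← htr]
    exact h0 k

end slice

section NN

variable {K W : Type*} [Field K] [AddCommGroup W] [Module K W]

/-- the radical of the trace form of the algebra generated by `T` -/
def NN (T : Submodule K (End K W)) : Submodule K (End K W) where
  carrier := {ν | ν ∈ Algebra.adjoin K (T : Set (End K W)) ∧
    ∀ b ∈ Algebra.adjoin K (T : Set (End K W)), LinearMap.trace K W (ν * b) = 0}
  zero_mem' := ⟨Subalgebra.zero_mem _, fun b _ => by rw [zero_mul, map_zero]⟩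
  add_mem' := fun {x y} hx hy => ⟨Subalgebra.add_mem _ hx.1 hy.1, fun b hb => by
    rw [add_mul, map_add, hx.2 b hb, hy.2 b hb, add_zero]⟩
  smul_mem' := fun c x hx => ⟨Subalgebra.smul_mem _ hx.1 c, fun b hb => by
    rw [smul_mul_assoc, map_smul, hx.2 b hb, smul_zero]⟩

theorem NN.mul_right {T : Submodule K (End K W)} {a ν : End K W} (hν : ν ∈ NN T)
    (ha : a ∈ Algebra.adjoin K (T : Set (End K W))) : ν * a ∈ NN T :=
  ⟨Subalgebra.mul_mem _ hν.1 ha, fun b hb => by
    rw [mul_assoc]; exact hν.2 _ (Subalgebra.mul_mem _ ha hb)⟩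

theorem NN.mul_left {T : Submodule K (End K W)} {a ν : End K W} (hν : ν ∈ NN T)
    (ha : a ∈ Algebra.adjoin K (T : Set (End K W))) : a * ν ∈ NN T :=
  ⟨Subalgebra.mul_mem _ ha hν.1, fun b hb => by
    rw [mul_assoc, LinearMap.trace_mul_comm, mul_assoc]
    exact hν.2 _ (Subalgebra.mul_mem _ hb ha)⟩

theorem NN.trace_left {T : Submodule K (End K W)} {a ν : End K W} (hν : ν ∈ NN T)
    (ha : a ∈ Algebra.adjoin K (T : Set (End K W))) : LinearMap.trace K W (a * ν) = 0 := by
  rw [LinearMap.trace_mul_comm]
  exact hν.2 a ha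

theorem NN.nilpotent [CharZero K] [FiniteDimensional K W] {T : Submodule K (End K W)}
    {ν : End K W} (hν : ν ∈ NN T) : IsNilpotent ν := by
  apply Pool.Agent.W457.isNilpotent_of_trace_pow
  intro j
  rw [pow_succ']
  exact hν.2 _ (Subalgebra.pow_mem _ hν.1 j)

theorem comm_all {T : Submodule K (End K W)} {r : End K W}
    (h : ∀ w ∈ T, w * r - r * w ∈ NN T) {a : End K W}
    (ha : a ∈ Algebra.adjoin K (T : Set (End K W))) : a * r - r * a ∈ NN T := by
  induction ha using Algebra.adjoin_induction with
  | mem a ha => exact h a ha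
  | algebraMap t =>
    have : algebraMap K (End K W) t * r - r * algebraMap K (End K W) t = 0 := by
      rw [Algebra.commutes, sub_self]
    rw [this]
    exact Submodule.zero_mem _
  | add a b _ _ ha hb =>
    convert Submodule.add_mem _ ha hb using 1
    noncomm_ring
  | mul a b ha hb iha ihb =>
    have : a * b * r - r * (a * b) = a * (b * r - r * b) + (a * r - r * a) * b := by
      noncomm_ring
    rw [this]
    exact Submodule.add_mem _ (NN.mul_left ihb ha) (NN.mul_right iha hb)

theorem comm_pow {T : Submodule K (End K W)} {r a : End K W}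
    (hr : r ∈ Algebra.adjoin K (T : Set (End K W)))
    (h : a * r - r * a ∈ NN T) (k : ℕ) : a * r ^ k - r ^ k * a ∈ NN T := by
  induction k with
  | zero => rw [pow_zero, mul_one, one_mul, sub_self]; exact Submodule.zero_mem _
  | succ k ih =>
    have : a * r ^ (k + 1) - r ^ (k + 1) * a =
        (a * r ^ k - r ^ k * a) * r + r ^ k * (a * r - r * a) := by
      rw [pow_succ]; noncomm_ring
    rw [this]
    exact Submodule.add_mem _ (NN.mul_right ih hr) (NN.mul_left h (Subalgebra.pow_mem _ hr k))

/-- nilpotent elements which are central modulo the radical belong to the radical -/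
theorem central_nil [CharZero K] [FiniteDimensional K W] {T : Submodule K (End K W)}
    {r : End K W} (hr : r ∈ Algebra.adjoin K (T : Set (End K W)))
    (h : ∀ w ∈ T, w * r - r * w ∈ NN T) (hn : IsNilpotent r) : r ∈ NN T := by
  refine ⟨hr, fun b hb => ?_⟩
  have key : ∀ k : ℕ, (r * b) ^ k - r ^ k * b ^ k ∈ NN T := by
    intro k
    induction k with
    | zero => simp
    | succ k ih =>
      have h1 : (r * b) ^ (k + 1) - r ^ (k + 1) * b ^ (k + 1) =
          ((r * b) ^ k - r ^ k * b ^ k) * (r * b) + r ^ k * (b ^ k * r - r * b ^ k) * b := by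
        rw [pow_succ (r * b), pow_succ r, pow_succ b]; noncomm_ring
      rw [h1]
      refine Submodule.add_mem _ (NN.mul_right ih (Subalgebra.mul_mem _ hr hb)) ?_
      exact NN.mul_right (NN.mul_left (comm_all h (Subalgebra.pow_mem _ hb k))
        (Subalgebra.pow_mem _ hr k)) hb
  obtain ⟨K', hK'⟩ := hn
  have h2 := key K'
  rw [hK', zero_mul, sub_zero] at h2
  obtain ⟨j, hj⟩ := NN.nilpotent h2
  have : IsNilpotent (r * b) := ⟨K' * j, by rw [pow_mul, hj]⟩
  exact (LinearMap.isNilpotent_trace_of_isNilpotent this).eq_zero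

end NN

section crit

variable {K W : Type*} [Field K] [CharZero K] [AddCommGroup W] [Module K W]
  [FiniteDimensional K W]

/-- **Critical nilpotent elements.**  `T` is the component of degree one of a graded Lie algebra of
endomorphisms; if `x ∈ T` is nilpotent and `T ⊆ [A, x] + N`, `A` the algebra generated by `T` and
`N` its radical, then all elements of `T` are nilpotent. -/
theorem nil_of_crit {T : Submodule K (End K W)} {m : ℕ} (hm : 2 ≤ m) (hcl : br T m ≤ T)
    {E : ZMod m → Submodule K (End K W)} (hT : T ≤ E 1)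
    (hmul : ∀ i j, ∀ a ∈ E i, ∀ b ∈ E j, a * b ∈ E (i + j))
    (htr : ∀ i, i ≠ 0 → ∀ a ∈ E i, LinearMap.trace K W a = 0)
    {x : End K W} (hx : x ∈ T) (hxn : IsNilpotent x)
    (hcrit : ∀ y ∈ T, ∃ a ∈ Algebra.adjoin K (T : Set (End K W)), ∃ ν ∈ NN T,
      y = (a * x - x * a) + ν) : ∀ y ∈ T, IsNilpotent y := by
  classical
  have hm0 : 0 < m := by omega
  set A := Algebra.adjoin K (T : Set (End K W)) with hA
  have hxA : x ∈ A := Algebra.subset_adjoin hx
  -- degrees
  have hdeg := br_deg hT hmul
  have htrbr : ∀ i j : ℕ, ¬ (m ∣ i + 1 + (j + 1)) → ∀ a ∈ br T i, ∀ b ∈ br T j,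
      LinearMap.trace K W (a * b) = 0 := by
    intro i j hij a ha b hb
    refine htr (((i + 1 : ℕ) : ZMod m) + ((j + 1 : ℕ) : ZMod m)) ?_ _
      (hmul _ _ a (hdeg i ha) b (hdeg j hb))
    rw [← Nat.cast_add]
    intro h
    exact hij ((ZMod.natCast_eq_zero_iff _ _).1 h)
  -- dual form
  have hdual : ∀ c ∈ A, c * x - x * c ∈ NN T → ∀ y ∈ T, LinearMap.trace K W (c * y) = 0 := by
    intro c hc hcx y hy
    obtain ⟨a, ha, ν, hν, rfl⟩ := hcrit y hy
    have h1 : LinearMap.trace K W (c * (a * x - x * a)) =
        -LinearMap.trace K W ((c * x - x * c) * a) := by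
      have e1 : LinearMap.trace K W (c * (a * x)) = LinearMap.trace K W ((x * c) * a) := by
        rw [← mul_assoc, LinearMap.trace_mul_comm, mul_assoc]
      rw [mul_sub, sub_mul, map_sub, map_sub, e1, mul_assoc c x a]
      ring
    rw [mul_add, map_add, h1, hcx.2 a ha, neg_zero, zero_add]
    exact NN.trace_left hν hc
  set L := Lt T m with hL
  have hLc : Closed L := Lt_closed hm0 hcl
  have hLA : ∀ a ∈ L, a ∈ A := fun a ha => Lt_le_adjoin ha
  have hTL : T ≤ L := br_le_Lt (T := T) hm0
  have hkl : ∀ w ∈ L, ∀ z, Rad L z → w * z - z * w ∈ NN T := by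
    intro w hw z hz
    refine ⟨hLA _ (hLc w hw z hz.1), fun b hb => kl hLc hw hz ?_⟩
    rw [hL, adjoin_Lt hm0]
    exact hb
  -- to be in the radical of the trace form of `L`
  have hrad : ∀ (i : ℕ) (z : End K W), i < m → z ∈ br T i →
      (∀ j, j < m → m ∣ i + 1 + (j + 1) → ∀ u ∈ br T j, LinearMap.trace K W (z * u) = 0) →
      Rad L z := by
    intro i z hi hz h
    refine ⟨br_le_Lt hi hz, fun u hu => ?_⟩
    rw [hL] at hu
    unfold Lt at hu
    induction hu using Submodule.iSup_induction' with
    | mem j u hu =>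
      by_cases hd : m ∣ i + 1 + ((j : ℕ) + 1)
      · exact h j j.2 hd u hu
      · exact htrbr i j hd z hz u hu
    | zero => rw [mul_zero, map_zero]
    | add u v _ _ hu hv => rw [mul_add, map_add, hu, hv, add_zero]
  -- step 1
  have step1 : ∀ y ∈ T, (∀ z ∈ br T (m - 2), LinearMap.trace K W (y * z) = 0) → y ∈ NN T := by
    intro y hy h
    have hR : Rad L y := by
      refine hrad 0 y hm0 hy fun j hj hd u hu => ?_
      have hj2 : j = m - 2 := by
        obtain ⟨q, hq⟩ := hd
        have : q = 1 := by
          rcases q with _ | _ | q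
          · omega
          · rfl
          · exfalso
            have : m * (q + 1 + 1) = m * q + m + m := by ring
            have h3 : 0 ≤ m * q := Nat.zero_le _
            omega
        subst this
        omega
      subst hj2
      exact h u hu
    have hc : ∀ w ∈ T, w * y - y * w ∈ NN T := fun w hw => hkl w (hTL hw) y hR
    have hyA : y ∈ A := Algebra.subset_adjoin hy
    have hyn : IsNilpotent y := by
      apply Pool.Agent.W457.isNilpotent_of_trace_pow
      intro k
      rw [pow_succ]
      refine hdual (y ^ k) (Subalgebra.pow_mem _ hyA k) ?_ y hy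
      have := comm_pow hyA (hc x hx) k
      have h2 : y ^ k * x - x * y ^ k = -(x * y ^ k - y ^ k * x) := by abel
      rw [h2]
      exact Submodule.neg_mem _ this
    exact central_nil hyA hc hyn
  -- step 2
  have step2 : ∀ z ∈ br T (m - 2), (∀ u ∈ br T (m - 1),
      LinearMap.trace K W (z * (u * x - x * u)) = 0) →
      ∀ y ∈ T, LinearMap.trace K W (z * y) = 0 := by
    intro z hz h
    have hzA : z ∈ A := br_le_adjoin _ hz
    set r := x * z - z * x with hr
    have hrb : r ∈ br T (m - 1) := by
      have := br_succ_mem hx hz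
      rwa [show m - 2 + 1 = m - 1 by omega] at this
    have hrA : r ∈ A := br_le_adjoin _ hrb
    have hR : Rad L r := by
      refine hrad (m - 1) r (by omega) hrb fun j hj hd u hu => ?_
      have hj2 : j = m - 1 := by
        obtain ⟨q, hq⟩ := hd
        have : q = 2 ∨ q ≤ 1 ∨ 3 ≤ q := by omega
        rcases this with h1 | h1 | h1
        · subst h1; omega
        · exfalso
          have : m * q ≤ m * 1 := Nat.mul_le_mul_left _ h1
          omega
        · exfalso
          have : m * 3 ≤ m * q := Nat.mul_le_mul_left _ h1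
          omega
      subst hj2
      have := h u hu
      rw [mul_sub, map_sub] at this
      rw [hr, sub_mul, map_sub]
      have e1 : LinearMap.trace K W (x * z * u) = LinearMap.trace K W (z * (u * x)) := by
        rw [mul_assoc, LinearMap.trace_mul_comm, mul_assoc]
      rw [e1, mul_assoc z x u]
      exact this
    have hc : ∀ w ∈ T, w * r - r * w ∈ NN T := fun w hw => hkl w (hTL hw) r hR
    have hrn : IsNilpotent r := by
      apply Pool.Agent.W457.isNilpotent_of_trace_pow
      intro k
      rw [pow_succ']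
      have h1 := comm_pow hrA (hc x hx) k
      have h2 := NN.trace_left h1 hzA
      rw [mul_sub, map_sub] at h2
      conv_lhs => rw [hr]
      rw [sub_mul, map_sub]
      have e1 : LinearMap.trace K W (x * z * r ^ k) = LinearMap.trace K W (z * (r ^ k * x)) := by
        rw [mul_assoc, LinearMap.trace_mul_comm, mul_assoc]
      rw [e1, mul_assoc z x]
      linear_combination -h2
    have hrN := central_nil hrA hc hrn
    refine hdual z hzA ?_
    have : z * x - x * z = -r := by rw [hr]; abel
    rw [this]
    exact Submodule.neg_mem _ hrN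
  -- step 3
  have step3 : ∀ b ∈ T, ∃ u s : End K W, s ∈ NN T ∧ (∀ y ∈ T, u * y - y * u ∈ T) ∧
      b = (u * x - x * u) + s := by
    have hnorm : ∀ u ∈ br T (m - 1), ∀ y ∈ T, u * y - y * u ∈ T := by
      intro u hu y hy
      have h1 := br_succ_mem hy hu
      rw [show m - 1 + 1 = m by omega] at h1
      have h2 := T.neg_mem (hcl h1)
      convert h2 using 1
      abel
    let δ : End K W →ₗ[K] End K W := LinearMap.mulRight K x - LinearMap.mulLeft K x
    have hδ : ∀ u, δ u = u * x - x * u := fun u => rfl
    let P : Submodule K (End K W) := (br T (m - 1)).map δ ⊔ (T ⊓ NN T)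
    have hP : ∀ b ∈ T, b ∈ P := by
      intro b hb
      by_contra hbP
      obtain ⟨f, hfb, hfP⟩ := Submodule.exists_dual_map_eq_bot_of_notMem hbP inferInstance
      have hf0 : ∀ p ∈ P, f p = 0 := by
        intro p hp
        have : f p ∈ P.map f := ⟨p, hp, rfl⟩
        rw [hfP] at this
        exact (Submodule.mem_bot K).1 this
      let Z := br T (m - 2)
      -- the pairing
      let Ψ : T →ₗ[K] Dual K Z :=
        LinearMap.mk₂ K (fun (y : T) (z : Z) => LinearMap.trace K W ((z : End K W) * y))
          (fun y y' z => by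
            rw [Submodule.coe_add, mul_add, map_add])
          (fun c y z => by
            rw [Submodule.coe_smul, mul_smul_comm, map_smul])
          (fun y z z' => by
            rw [Submodule.coe_add, add_mul, map_add])
          (fun c y z => by
            rw [Submodule.coe_smul, smul_mul_assoc, map_smul])
      have hker : f ∘ₗ T.subtype ∈ (LinearMap.ker Ψ).dualAnnihilator := by
        rw [Submodule.mem_dualAnnihilator]
        intro y hy
        have hy2 : (y : End K W) ∈ NN T := by
          refine step1 y y.2 fun z hz => ?_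
          have := LinearMap.congr_fun (LinearMap.mem_ker.1 hy) ⟨z, hz⟩
          rw [LinearMap.trace_mul_comm]
          exact this
        exact hf0 _ (Submodule.mem_sup_right ⟨y.2, hy2⟩)
      rw [← LinearMap.range_dualMap_eq_dualAnnihilator_ker] at hker
      obtain ⟨g, hg⟩ := hker
      obtain ⟨z, hz⟩ := (Module.evalEquiv K Z).surjective g
      have hfz : ∀ y ∈ T, f y = LinearMap.trace K W ((z : End K W) * y) := by
        intro y hy
        have h1 := LinearMap.congr_fun hg ⟨y, hy⟩
        rw [← hz] at h1
        exact h1.symm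
      apply hfb
      rw [hfz b hb]
      refine step2 z z.2 (fun u hu => ?_) b hb
      rw [← hfz _ (hnorm u hu x hx)]
      exact hf0 _ (Submodule.mem_sup_left ⟨u, hu, rfl⟩)
    intro b hb
    obtain ⟨_, ⟨u, hu, rfl⟩, s, hs, hbs⟩ := Submodule.mem_sup.1 (hP b hb)
    exact ⟨u, s, hs.2, hnorm u hu, hbs.symm⟩
  -- step 4
  intro y hy
  apply Pool.Agent.W457.isNilpotent_of_trace_pow
  refine slice_end T (fun s => s ∈ NN T) (fun s hs a ha => NN.trace_left hs ha) hx step3
    (fun k => ?_) y hy
  have : IsNilpotent (x ^ (k + 1)) := hxn.pow_succ k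
  exact (LinearMap.isNilpotent_trace_of_isNilpotent this).eq_zero

end crit

end Pool.Agent.TH45.Gr
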