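import Pool.Agent.TH45.Gr.Crit

/-!
# The cyclic cover
-/

set_option autoImplicit false

namespace Pool.Agent.TH45.Gr

open Module

section defs

variable {K V : Type*} [Field K] [AddCommGroup V] [Module K V] {m : ℕ}

/-- the operator which applies `a` and shifts the positions by `k` -/
def gr (k : ZMod m) : End K V →ₗ[K] End K (ZMod m → V) where
  toFun a :=
    { toFun := fun v p => a (v (p - k))
      map_add' := fun _ _ => funext fun _ => map_add a _ _
      map_smul' := fun c _ => funext fun _ => map_smul a c _ }
  map_add' _ _ := rfl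
  map_smul' _ _ := rfl

theorem gr_apply (k : ZMod m) (a : End K V) (v : ZMod m → V) (p : ZMod m) :
    gr k a v p = a (v (p - k)) := rfl

theorem gr_mul (k l : ZMod m) (a b : End K V) : gr k a * gr l b = gr (k + l) (a * b) := by
  apply LinearMap.ext
  intro v
  funext p
  rw [Module.End.mul_apply, gr_apply, gr_apply, gr_apply, Module.End.mul_apply, sub_sub]

theorem gr_one : gr (0 : ZMod m) (1 : End K V) = 1 := by
  apply LinearMap.ext
  intro v
  funext p
  rw [gr_apply, sub_zero]
  rfl

theorem gr_pow (k : ZMod m) (a : End K V) (j : ℕ) : gr k a ^ j = gr ((j : ZMod m) * k) (a ^ j) := by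
  induction j with
  | zero => rw [pow_zero, pow_zero, Nat.cast_zero, zero_mul, gr_one]
  | succ j ih =>
    rw [pow_succ, ih, gr_mul, pow_succ]
    congr 1
    push_cast
    ring_nf

/-- the component of degree `k` of an operator -/
def cmp (k : ZMod m) : End K (ZMod m → V) →ₗ[K] End K V where
  toFun f := (LinearMap.proj k) ∘ₗ f ∘ₗ (LinearMap.single K (fun _ : ZMod m => V) 0)
  map_add' _ _ := rfl
  map_smul' _ _ := rfl

theorem cmp_gr (k l : ZMod m) (a : End K V) : cmp k (gr l a) = if k = l then a else 0 := by
  apply LinearMap.ext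
  intro v
  show a ((Pi.single (0 : ZMod m) v : ZMod m → V) (k - l)) = _
  by_cases h : k = l
  · rw [if_pos h, h, sub_self, Pi.single_eq_same]
  · rw [if_neg h, Pi.single_eq_of_ne (sub_ne_zero.2 h), map_zero]
    rfl

theorem gr_injective (k : ZMod m) : Function.Injective (gr k : End K V →ₗ[K] _) := by
  intro a b h
  have := congrArg (cmp k) h
  rwa [cmp_gr, cmp_gr, if_pos rfl, if_pos rfl] at this

variable [FiniteDimensional K V] [NeZero m]

theorem trace_gr (k : ZMod m) (a : End K V) :
    LinearMap.trace K (ZMod m → V) (gr k a) = if k = 0 then (m : K) * LinearMap.trace K V a else 0 := by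
  classical
  let b := Module.finBasis K V
  rw [LinearMap.trace_eq_matrix_trace K (Pi.basis fun _ : ZMod m => b),
    LinearMap.trace_eq_matrix_trace K b, Matrix.trace, Fintype.sum_sigma]
  have h : ∀ (p : ZMod m) (i : Fin (finrank K V)),
      (LinearMap.toMatrix (Pi.basis fun _ : ZMod m => b) (Pi.basis fun _ : ZMod m => b)
        (gr k a)).diag ⟨p, i⟩ = if k = 0 then (LinearMap.toMatrix b b a).diag i else 0 := by
    intro p i
    rw [Matrix.diag_apply, LinearMap.toMatrix_apply, Pi.basis_repr, Pi.basis_apply, gr_apply]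
    by_cases hk : k = 0
    · subst hk
      rw [if_pos rfl, sub_zero, Pi.single_eq_same, Matrix.diag_apply, LinearMap.toMatrix_apply]
    · rw [if_neg hk]
      have : p - k ≠ p := by
        intro h
        exact hk (by simpa using h)
      rw [Pi.single_eq_of_ne this, map_zero, map_zero]
      rfl
  simp only [h]
  by_cases hk : k = 0
  · simp only [if_pos hk]
    rw [Finset.sum_const, Finset.card_univ, ZMod.card, Matrix.trace, nsmul_eq_mul]
  · simp only [if_neg hk]
    simp

end defs

section hom

variable {K V : Type*} [Field K] [AddCommGroup V] [Module K V]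

/-- the span of the products of elements of `T` whose number of factors is congruent to `r` -/
def Hom (T : Submodule K (End K V)) (m : ℕ) (r : ZMod m) : Submodule K (End K V) :=
  Submodule.span K {a | ∃ l : List (End K V), (∀ b ∈ l, b ∈ T) ∧ (l.length : ZMod m) = r ∧
    a = l.prod}

variable {T : Submodule K (End K V)} {m : ℕ}

theorem Hom.mul {r s : ZMod m} {a b : End K V} (ha : a ∈ Hom T m r) (hb : b ∈ Hom T m s) :
    a * b ∈ Hom T m (r + s) := by
  unfold Hom at ha
  induction ha using Submodule.span_induction with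
  | mem a ha =>
    obtain ⟨l, hl, hr, rfl⟩ := ha
    unfold Hom at hb
    induction hb using Submodule.span_induction with
    | mem b hb =>
      obtain ⟨l', hl', hr', rfl⟩ := hb
      refine Submodule.subset_span ⟨l ++ l', ?_, ?_, by rw [List.prod_append]⟩
      · intro b hb
        rcases List.mem_append.1 hb with h | h
        · exact hl b h
        · exact hl' b h
      · rw [List.length_append, Nat.cast_add, hr, hr']
    | zero => rw [mul_zero]; exact Submodule.zero_mem _
    | add x y _ _ hx hy => rw [mul_add]; exact Submodule.add_mem _ hx hy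
    | smul t x _ hx => rw [mul_smul_comm]; exact Submodule.smul_mem _ t hx
  | zero => rw [zero_mul]; exact Submodule.zero_mem _
  | add x y _ _ hx hy => rw [add_mul]; exact Submodule.add_mem _ hx hy
  | smul t x _ hx => rw [smul_mul_assoc]; exact Submodule.smul_mem _ t hx

theorem Hom.of_mem {a : End K V} (ha : a ∈ T) : a ∈ Hom T m 1 :=
  Submodule.subset_span ⟨[a], by simpa using ha, by simp, by simp⟩

theorem Hom.one : (1 : End K V) ∈ Hom T m 0 :=
  Submodule.subset_span ⟨[], by simp, by simp, by simp⟩

/-- the elements of degree `r` which are orthogonal to the elements of degree `-r` -/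
def Nk (T : Submodule K (End K V)) (m : ℕ) (r : ZMod m) : Submodule K (End K V) where
  carrier := {ν | ν ∈ Hom T m r ∧ ∀ b ∈ Hom T m (-r), LinearMap.trace K V (ν * b) = 0}
  zero_mem' := ⟨Submodule.zero_mem _, fun b _ => by rw [zero_mul, map_zero]⟩
  add_mem' := fun {x y} hx hy => ⟨Submodule.add_mem _ hx.1 hy.1, fun b hb => by
    rw [add_mul, map_add, hx.2 b hb, hy.2 b hb, add_zero]⟩
  smul_mem' := fun c x hx => ⟨Submodule.smul_mem _ c hx.1, fun b hb => by
    rw [smul_mul_assoc, map_smul, hx.2 b hb, smul_zero]⟩

theorem Nk.mul_left {r s : ZMod m} {a ν : End K V} (ha : a ∈ Hom T m s) (hν : ν ∈ Nk T m r) :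
    a * ν ∈ Nk T m (s + r) := by
  refine ⟨Hom.mul ha hν.1, fun b hb => ?_⟩
  rw [mul_assoc, LinearMap.trace_mul_comm, mul_assoc]
  apply hν.2
  have := Hom.mul hb ha
  rwa [show -(s + r) + s = -r by ring] at this

/-- the flag of the radical -/
def Fl (T : Submodule K (End K V)) (m : ℕ) : ℕ → Submodule K V
  | 0 => ⊤
  | i + 1 => Submodule.span K {w | ∃ r : ZMod m, ∃ ν ∈ Nk T m r, ∃ v ∈ Fl T m i, w = ν v}

theorem Fl_le (i : ℕ) : Fl T m (i + 1) ≤ Fl T m i := by
  induction i with
  | zero => exact le_top
  | succ i ih =>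
    show Submodule.span K _ ≤ Submodule.span K _
    apply Submodule.span_mono
    rintro _ ⟨r, ν, hν, v, hv, rfl⟩
    exact ⟨r, ν, hν, v, ih hv, rfl⟩

theorem Fl_stable {s : ZMod m} {a : End K V} (ha : a ∈ Hom T m s) (i : ℕ) :
    ∀ v ∈ Fl T m i, a v ∈ Fl T m i := by
  cases i with
  | zero => intro v _; trivial
  | succ i =>
    intro v hv
    unfold Fl at hv
    induction hv using Submodule.span_induction with
    | mem v hv =>
      obtain ⟨r, ν, hν, w, hw, rfl⟩ := hv
      exact Submodule.subset_span ⟨s + r, a * ν, Nk.mul_left ha hν, w, hw, rfl⟩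
    | zero => rw [map_zero]; exact Submodule.zero_mem _
    | add x y _ _ hx hy => rw [map_add]; exact Submodule.add_mem _ hx hy
    | smul t x _ hx => rw [map_smul]; exact Submodule.smul_mem _ t hx

theorem Fl_step {r : ZMod m} {ν : End K V} (hν : ν ∈ Nk T m r) (i : ℕ) :
    ∀ v ∈ Fl T m i, ν v ∈ Fl T m (i + 1) :=
  fun v hv => Submodule.subset_span ⟨r, ν, hν, v, hv, rfl⟩

end hom

section cover

variable {K V : Type*} [Field K] [AddCommGroup V] [Module K V] {T : Submodule K (End K V)} {m : ℕ}

theorem br_map (k : ℕ) : br (T.map (gr (1 : ZMod m))) k ≤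
    (br T k).map (gr ((k + 1 : ℕ) : ZMod m)) := by
  induction k with
  | zero =>
    show T.map _ ≤ T.map _
    rw [zero_add, Nat.cast_one]
  | succ k ih =>
    show Submodule.span K _ ≤ _
    rw [Submodule.span_le]
    rintro _ ⟨_, ⟨a, ha, rfl⟩, b, hb, rfl⟩
    obtain ⟨b, hb', rfl⟩ := ih hb
    refine ⟨a * b - b * a, br_succ_mem ha hb', ?_⟩
    rw [gr_mul, gr_mul, map_sub]
    have e1 : (1 : ZMod m) + ((k + 1 : ℕ) : ZMod m) = ((k + 1 + 1 : ℕ) : ZMod m) := by
      push_cast; ring
    have e2 : ((k + 1 : ℕ) : ZMod m) + (1 : ZMod m) = ((k + 1 + 1 : ℕ) : ZMod m) := by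
      push_cast; ring
    rw [e1, e2]

theorem br_cover (h : br T m ≤ T) : br (T.map (gr (1 : ZMod m))) m ≤ T.map (gr (1 : ZMod m)) := by
  refine (br_map m).trans ?_
  have : ((m + 1 : ℕ) : ZMod m) = 1 := by push_cast; rw [ZMod.natCast_self, zero_add]
  rw [this]
  exact Submodule.map_mono h

/-- the algebra generated by the shifted operators -/
abbrev Ad (T : Submodule K (End K V)) (m : ℕ) : Subalgebra K (End K (ZMod m → V)) :=
  Algebra.adjoin K ((T.map (gr (1 : ZMod m)) : Submodule K _) : Set (End K (ZMod m → V)))

theorem gr_mem {r : ZMod m} {a : End K V} (ha : a ∈ Hom T m r) : gr r a ∈ Ad T m := by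
  unfold Hom at ha
  induction ha using Submodule.span_induction with
  | mem a ha =>
    obtain ⟨l, hl, hr, rfl⟩ := ha
    induction l generalizing r with
    | nil =>
      have : r = 0 := by rw [← hr]; simp
      subst this
      rw [List.prod_nil, gr_one]
      exact Subalgebra.one_mem _
    | cons b l ih =>
      have h1 : gr (1 : ZMod m) b ∈ Ad T m :=
        Algebra.subset_adjoin ⟨b, hl b (by simp), rfl⟩
      have h2 := ih (fun c hc => hl c (by simp [hc])) (r := (l.length : ZMod m)) rfl
      have h3 := Subalgebra.mul_mem _ h1 h2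
      rw [gr_mul] at h3
      have : (1 : ZMod m) + (l.length : ZMod m) = r := by
        rw [← hr, List.length_cons]; push_cast; ring
      rwa [this] at h3
  | zero => rw [map_zero]; exact Subalgebra.zero_mem _
  | add x y _ _ hx hy => rw [map_add]; exact Subalgebra.add_mem _ hx hy
  | smul t x _ hx => rw [map_smul]; exact Subalgebra.smul_mem _ hx t

theorem mem_span_of_adjoin {f : End K (ZMod m → V)} (hf : f ∈ Ad T m) :
    f ∈ Submodule.span K {g | ∃ r : ZMod m, ∃ a ∈ Hom T m r, g = gr r a} := by
  induction hf using Algebra.adjoin_induction with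
  | mem f hf =>
    obtain ⟨a, ha, rfl⟩ := hf
    exact Submodule.subset_span ⟨1, a, Hom.of_mem ha, rfl⟩
  | algebraMap t =>
    rw [Algebra.algebraMap_eq_smul_one]
    exact Submodule.smul_mem _ t (Submodule.subset_span ⟨0, 1, Hom.one, gr_one.symm⟩)
  | add f g _ _ hf hg => exact Submodule.add_mem _ hf hg
  | mul f g hf' hg' hf hg =>
    clear hf' hg'
    induction hf using Submodule.span_induction with
    | mem f hf =>
      obtain ⟨r, a, ha, rfl⟩ := hf
      induction hg using Submodule.span_induction with
      | mem g hg =>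
        obtain ⟨s, b, hb, rfl⟩ := hg
        rw [gr_mul]
        exact Submodule.subset_span ⟨r + s, a * b, Hom.mul ha hb, rfl⟩
      | zero => rw [mul_zero]; exact Submodule.zero_mem _
      | add x y _ _ hx hy => rw [mul_add]; exact Submodule.add_mem _ hx hy
      | smul t x _ hx => rw [mul_smul_comm]; exact Submodule.smul_mem _ t hx
    | zero => rw [zero_mul]; exact Submodule.zero_mem _
    | add x y _ _ hx hy => rw [add_mul]; exact Submodule.add_mem _ hx hy
    | smul t x _ hx => rw [smul_mul_assoc]; exact Submodule.smul_mem _ t hx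

theorem cmp_mem {f : End K (ZMod m → V)} (hf : f ∈ Ad T m) (s : ZMod m) : cmp s f ∈ Hom T m s := by
  replace hf := mem_span_of_adjoin hf
  induction hf using Submodule.span_induction with
  | mem f hf =>
    obtain ⟨r, a, ha, rfl⟩ := hf
    rw [cmp_gr]
    by_cases h : s = r
    · rw [if_pos h, h]; exact ha
    · rw [if_neg h]; exact Submodule.zero_mem _
  | zero => rw [map_zero]; exact Submodule.zero_mem _
  | add x y _ _ hx hy => rw [map_add]; exact Submodule.add_mem _ hx hy
  | smul t x _ hx => rw [map_smul]; exact Submodule.smul_mem _ t hx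

variable [FiniteDimensional K V] [NeZero m]

theorem trace_mul_gr {f : End K (ZMod m → V)} (hf : f ∈ Ad T m) (r : ZMod m) (b : End K V) :
    LinearMap.trace K (ZMod m → V) (f * gr r b) =
      (m : K) * LinearMap.trace K V (cmp (-r) f * b) := by
  replace hf := mem_span_of_adjoin hf
  induction hf using Submodule.span_induction with
  | mem f hf =>
    obtain ⟨s, a, ha, rfl⟩ := hf
    rw [gr_mul, trace_gr, cmp_gr]
    by_cases h : s + r = 0
    · rw [if_pos h, if_pos (neg_eq_of_add_eq_zero_left h)]
    · rw [if_neg h, if_neg (fun h' => h (by rw [← h']; ring)), zero_mul, map_zero, mul_zero]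
  | zero => rw [zero_mul, map_zero, map_zero, zero_mul, map_zero, mul_zero]
  | add x y _ _ hx hy => rw [add_mul, map_add, map_add, add_mul, map_add, hx, hy, mul_add]
  | smul t x _ hx =>
    rw [smul_mul_assoc, map_smul, map_smul, smul_mul_assoc, map_smul, hx, smul_eq_mul,
      smul_eq_mul]
    ring

theorem gr_mem_NN {r : ZMod m} {ν : End K V} (hν : ν ∈ Nk T m r) :
    gr r ν ∈ NN (T.map (gr (1 : ZMod m))) := by
  refine ⟨gr_mem hν.1, fun b hb => ?_⟩
  rw [LinearMap.trace_mul_comm, trace_mul_gr hb, LinearMap.trace_mul_comm]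
  rw [hν.2 _ (cmp_mem hb _), mul_zero]

theorem Fl_single (i : ℕ) : ∀ v ∈ Fl T m i, ∀ p : ZMod m,
    (Pi.single p v : ZMod m → V) ∈ Gj (NN (T.map (gr (1 : ZMod m)))) i := by
  induction i with
  | zero => intro v _ p; trivial
  | succ i ih =>
    intro v hv p
    unfold Fl at hv
    induction hv using Submodule.span_induction with
    | mem v hv =>
      obtain ⟨r, ν, hν, w, hw, rfl⟩ := hv
      refine Submodule.subset_span ⟨gr r ν, gr_mem_NN hν, Pi.single (p - r) w, ih w hw _, ?_⟩
      funext q
      rw [gr_apply]
      by_cases h : q = p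
      · subst h; rw [Pi.single_eq_same, Pi.single_eq_same]
      · rw [Pi.single_eq_of_ne h, Pi.single_eq_of_ne, map_zero]
        intro h'
        exact h (sub_left_injective h')
    | zero => rw [Pi.single_zero]; exact Submodule.zero_mem _
    | add x y _ _ hx hy => rw [Pi.single_add]; exact Submodule.add_mem _ hx hy
    | smul t x _ hx => rw [Pi.single_smul]; exact Submodule.smul_mem _ t hx

theorem Fl_bot [CharZero K] : ∃ k, Fl T m k = ⊥ := by
  obtain ⟨k, hk⟩ := Gj_bot (I := NN (T.map (gr (1 : ZMod m))))
    (fun a ha b hb => Submodule.sub_mem _ (NN.mul_left hb ha.1) (NN.mul_left ha hb.1))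
    (fun x hx => NN.nilpotent hx)
  refine ⟨k, ?_⟩
  rw [eq_bot_iff]
  intro v hv
  have h1 := Fl_single k v hv 0
  rw [hk, Submodule.mem_bot] at h1
  have h2 := congrFun h1 0
  rwa [Pi.single_eq_same] at h2

theorem Fl_finrank [CharZero K] : Fl T m (finrank K V) = ⊥ := by
  have h : ∀ i, Fl T m i = ⊥ ∨ finrank K (Fl T m i) + i ≤ finrank K V := by
    intro i
    induction i with
    | zero => right; rw [add_zero]; exact Submodule.finrank_le _
    | succ i ih =>
      by_cases heq : Fl T m (i + 1) = Fl T m i
      · left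
        obtain ⟨k, hk⟩ := Fl_bot (T := T) (m := m)
        have hst : ∀ j, Fl T m (i + 1 + j) = Fl T m i := by
          intro j
          induction j with
          | zero => exact heq
          | succ j ih =>
            rw [← heq]
            show Fl T m ((i + 1 + j) + 1) = Fl T m (i + 1)
            unfold Fl
            rw [ih]
        have h1 := hst k
        have hanti : ∀ a b, Fl T m (a + b) ≤ Fl T m a := by
          intro a b
          induction b with
          | zero => exact le_rfl
          | succ b ih => exact (Fl_le _).trans ih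
        have h2 : Fl T m (i + 1 + k) ≤ ⊥ := by
          rw [← hk, add_comm]
          exact hanti k (i + 1)
        rw [heq, ← h1]
        exact le_bot_iff.1 h2
      · rcases ih with ih | ih
        · left
          exact le_bot_iff.1 ((Fl_le i).trans ih.le)
        · right
          have := Submodule.finrank_lt_finrank_of_lt (lt_of_le_of_ne (Fl_le i) heq)
          omega
  rcases h (finrank K V) with h | h
  · exact h
  · apply Submodule.finrank_eq_zero.1
    omega

end cover

end Pool.Agent.TH45.Gr
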