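import Pool.Agent.TH45.Gr.Pot

/-!
# Flags: an element which is not tangent grows on one of the layers
-/

set_option autoImplicit false

namespace Pool.Agent.TH45.Gr

open Module Finset

variable {K W : Type*} [Field K] [AddCommGroup W] [Module K W] [FiniteDimensional K W]

theorem trace_step {F G : Submodule K W} (hGF : G ≤ F) {f : End K W} (hF : ∀ v ∈ F, f v ∈ F)
    (hG : ∀ v ∈ G, f v ∈ G)
    (hQ : G.comap F.subtype ≤ (G.comap F.subtype).comap (f.restrict hF)) :
    LinearMap.trace K F (f.restrict hF) = LinearMap.trace K G (f.restrict hG) +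
      LinearMap.trace K (F ⧸ G.comap F.subtype)
        ((G.comap F.subtype).mapQ (G.comap F.subtype) (f.restrict hF) hQ) := by
  rw [trace_eq_add (G.comap F.subtype) (f.restrict hF) hQ]
  congr 1
  rw [← LinearMap.trace_conj' _ (Submodule.comapSubtypeEquivOfLe hGF)]
  congr 1

theorem exists_layer (F : ℕ → Submodule K W) (hF0 : F 0 = ⊤) (hle : ∀ i, F (i + 1) ≤ F i)
    {d : ℕ} (hd : F d = ⊥) {f : End K W} (hf : ∀ i, ∀ v ∈ F i, f v ∈ F i)
    (htr : LinearMap.trace K W f ≠ 0) :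
    ∃ i < d, ∃ hQ : (F (i + 1)).comap (F i).subtype ≤
        ((F (i + 1)).comap (F i).subtype).comap (f.restrict (hf i)),
      LinearMap.trace K (F i ⧸ (F (i + 1)).comap (F i).subtype)
        (((F (i + 1)).comap (F i).subtype).mapQ _ (f.restrict (hf i)) hQ) ≠ 0 := by
  by_contra hcon
  push Not at hcon
  have h0 : LinearMap.trace K (F 0) (f.restrict (hf 0)) = LinearMap.trace K W f := by
    have e : F 0 ≃ₗ[K] W := (LinearEquiv.ofEq _ _ hF0).trans Submodule.topEquiv
    have h1 : ∀ (G : Submodule K W) (hG : G = ⊤) (hfG : ∀ v ∈ G, f v ∈ G),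
        LinearMap.trace K G (f.restrict hfG) = LinearMap.trace K W f := by
      intro G hG hfG
      subst hG
      rw [← LinearMap.trace_conj' (f.restrict hfG) Submodule.topEquiv]
      congr 1
    exact h1 _ hF0 _
  have hstep : ∀ i ≤ d, LinearMap.trace K (F 0) (f.restrict (hf 0)) =
      LinearMap.trace K (F i) (f.restrict (hf i)) := by
    intro i
    induction i with
    | zero => intro _; rfl
    | succ i ih =>
      intro hi
      rw [ih (by omega)]
      have hQ : (F (i + 1)).comap (F i).subtype ≤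
        ((F (i + 1)).comap (F i).subtype).comap (f.restrict (hf i)) := by
        intro v hv
        exact hf (i + 1) _ hv
      rw [trace_step (hle i) (hf i) (hf (i + 1)) hQ, hcon i (by omega) hQ, add_zero]
  have h2 := hstep d le_rfl
  have h3 : LinearMap.trace K (F d) (f.restrict (hf d)) = 0 := by
    have : f.restrict (hf d) = 0 := by
      apply LinearMap.ext
      intro v
      apply Subtype.ext
      have h4 : ((f.restrict (hf d) v : F d) : W) ∈ (⊥ : Submodule K W) := by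
        rw [← hd]
        exact (f.restrict (hf d) v).2
      exact (Submodule.mem_bot K).1 h4
    rw [this, map_zero]
  exact htr (by rw [← h0, h2, h3])

/-- **Growth on a layer of the flag.** -/
theorem flag_grow (F : ℕ → Submodule K W) (hF0 : F 0 = ⊤) (hle : ∀ i, F (i + 1) ≤ F i)
    {d : ℕ} (hd : F d = ⊥) {x y c : End K W} (hx : ∀ i, ∀ v ∈ F i, x v ∈ F i)
    (hy : ∀ i, ∀ v ∈ F i, y v ∈ F i) (hc : ∀ i, ∀ v ∈ F i, c v ∈ F i)
    (hcx : ∀ i, ∀ v ∈ F i, (c * x - x * c) v ∈ F (i + 1)) (hxn : IsNilpotent x)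
    (htr : LinearMap.trace K W (c * y) ≠ 0) :
    ∃ i < d, ∃ k ≤ finrank K W, ∃ v ∈ F i, (x ^ k) v ∈ F (i + 1) ∧
      pc x y k 1 v ∉ (F i).map (x ^ k) ⊔ F (i + 1) := by
  have hcy : ∀ i, ∀ v ∈ F i, (c * y) v ∈ F i := fun i v hv => hc i _ (hy i v hv)
  obtain ⟨i, hi, hQ, htr'⟩ := exists_layer F hF0 hle hd hcy htr
  set G : Submodule K (F i) := (F (i + 1)).comap (F i).subtype with hG
  have hst : ∀ (g : End K W) (hg : ∀ j, ∀ v ∈ F j, g v ∈ F j),
      G ≤ G.comap (g.restrict (hg i)) := by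
    intro g hg v hv
    exact hg (i + 1) _ hv
  let bar : (g : End K W) → (hg : ∀ j, ∀ v ∈ F j, g v ∈ F j) → End K (F i ⧸ G) :=
    fun g hg => G.mapQ G (g.restrict (hg i)) (hst g hg)
  have hbar : ∀ g hg (v : W) (hv : v ∈ F i), bar g hg (G.mkQ ⟨v, hv⟩) =
      G.mkQ ⟨g v, hg i v hv⟩ := fun g hg v hv => rfl
  have hxb : IsNilpotent (bar x hx) := by
    obtain ⟨q, hq⟩ := hxn
    have hpow : ∀ (k : ℕ) (v : W) (hv : v ∈ F i), ∃ h : (x ^ k) v ∈ F i,
        (bar x hx ^ k) (G.mkQ ⟨v, hv⟩) = G.mkQ ⟨(x ^ k) v, h⟩ := by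
      intro k
      induction k with
      | zero => intro v hv; exact ⟨hv, rfl⟩
      | succ k ih =>
        intro v hv
        obtain ⟨h1, h2⟩ := ih (x v) (hx i v hv)
        rw [pow_succ, pow_succ]
        refine ⟨h1, ?_⟩
        rw [Module.End.mul_apply, hbar, h2]
        rfl
    refine ⟨q, LinearMap.ext fun v => ?_⟩
    obtain ⟨⟨w, hw⟩, rfl⟩ := G.mkQ_surjective v
    obtain ⟨h1, h2⟩ := hpow q w hw
    rw [h2]
    have h3 : (⟨(x ^ q) w, h1⟩ : F i) = 0 := Subtype.ext (by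
      show (x ^ q) w = 0
      rw [hq]; rfl)
    rw [h3, map_zero]
    rfl
  have hcomm : bar c hc * bar x hx = bar x hx * bar c hc := by
    apply LinearMap.ext
    intro v
    obtain ⟨⟨w, hw⟩, rfl⟩ := G.mkQ_surjective v
    rw [Module.End.mul_apply, Module.End.mul_apply, hbar, hbar, hbar, hbar, ← sub_eq_zero,
      ← map_sub, Submodule.mkQ_apply, Submodule.Quotient.mk_eq_zero]
    exact hcx i w hw
  have htrb : LinearMap.trace K (F i ⧸ G) (bar c hc * bar y hy) ≠ 0 := by
    have : bar c hc * bar y hy = G.mapQ G ((c * y).restrict (hcy i)) hQ := by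
      apply LinearMap.ext
      intro v
      obtain ⟨⟨w, hw⟩, rfl⟩ := G.mkQ_surjective v
      rfl
    rw [this]
    exact htr'
  obtain ⟨k, v, hk, hv0, hv1⟩ := exists_grow hxb hcomm htrb
  obtain ⟨⟨w, hw⟩, rfl⟩ := G.mkQ_surjective v
  have hmap := pc_map (x' := bar x hx) (y' := bar y hy) (F i) (hx i) (hy i) G.mkQ
    (fun v hv => rfl) (fun v hv => rfl) k
  obtain ⟨h0, h0'⟩ := hmap 0
  obtain ⟨h1, h1'⟩ := hmap 1
  refine ⟨i, hi, k, ?_, w, hw, ?_, ?_⟩
  · exact hk.trans ((Submodule.finrank_quotient_le G).trans (Submodule.finrank_le _))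
  · have h2 := h0' w hw
    rw [pc_zero, hv0] at h2
    have h3 := h2.symm
    rw [Submodule.mkQ_apply, Submodule.Quotient.mk_eq_zero] at h3
    have h4 : pc x y k 0 w ∈ F (i + 1) := h3
    rwa [pc_zero] at h4
  · intro hmem
    apply hv1
    rw [h1' w hw]
    obtain ⟨_, ⟨u, hu, rfl⟩, g, hg, hsum⟩ := Submodule.mem_sup.1 hmem
    refine ⟨G.mkQ ⟨u, hu⟩, ?_⟩
    have h2 := h0' u hu
    rw [pc_zero] at h2
    rw [h2, ← sub_eq_zero, ← map_sub, Submodule.mkQ_apply, Submodule.Quotient.mk_eq_zero]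
    show pc x y k 0 u - pc x y k 1 w ∈ F (i + 1)
    rw [pc_zero, ← hsum]
    have : (x ^ k) u - ((x ^ k) u + g) = -g := by abel
    rw [this]
    exact (F (i + 1)).neg_mem hg

end Pool.Agent.TH45.Gr
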