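import Pool.Agent.TH45.Gr.Cartan

/-!
# Commutators with the radical of the trace form
-/

set_option autoImplicit false

namespace Pool.Agent.TH45.Gr

open Module

attribute [local instance 100] LieRing.ofAssociativeRing

section defs

variable {K M : Type*} [Field K] [AddCommGroup M] [Module K M]

/-- closed under commutators -/
def Closed (L : Submodule K (End K M)) : Prop := ∀ a ∈ L, ∀ b ∈ L, a * b - b * a ∈ L

/-- the radical of the trace form of `L` -/
def Rad (L : Submodule K (End K M)) (z : End K M) : Prop :=
  z ∈ L ∧ ∀ u ∈ L, LinearMap.trace K M (z * u) = 0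

/-- the span of the commutators of `L` with the radical -/
def comI (L : Submodule K (End K M)) : Submodule K (End K M) :=
  Submodule.span K {x | ∃ w ∈ L, ∃ z, Rad L z ∧ x = w * z - z * w}

theorem Rad.lie {L : Submodule K (End K M)} (hL : Closed L) {z l : End K M} (hz : Rad L z)
    (hl : l ∈ L) : Rad L (l * z - z * l) := by
  refine ⟨hL l hl z hz.1, fun u hu => ?_⟩
  have h1 : (LinearMap.trace K M) ((l * z - z * l) * u) =
      (LinearMap.trace K M) (z * (u * l - l * u)) := by
    rw [sub_mul, mul_sub, map_sub, map_sub]
    congr 1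
    rw [mul_assoc, LinearMap.trace_mul_comm K l, mul_assoc]
  rw [h1]
  exact hz.2 _ (hL u hu l hl)

theorem comI_le {L : Submodule K (End K M)} (hL : Closed L) : comI L ≤ L := by
  rw [comI, Submodule.span_le]
  rintro _ ⟨w, hw, z, hz, rfl⟩
  exact hL w hw z hz.1

theorem comI_lie {L : Submodule K (End K M)} (hL : Closed L) {l x : End K M} (hl : l ∈ L)
    (hx : x ∈ comI L) : l * x - x * l ∈ comI L := by
  unfold comI at hx
  induction hx using Submodule.span_induction with
  | mem x hx =>
    obtain ⟨w, hw, z, hz, rfl⟩ := hx
    have h1 : l * (w * z - z * w) - (w * z - z * w) * l =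
        ((l * w - w * l) * z - z * (l * w - w * l)) +
          (w * (l * z - z * l) - (l * z - z * l) * w) := by noncomm_ring
    rw [h1]
    exact Submodule.add_mem _ (Submodule.subset_span ⟨_, hL l hl w hw, z, hz, rfl⟩)
      (Submodule.subset_span ⟨w, hw, _, hz.lie hL hl, rfl⟩)
  | zero => simp
  | add x y _ _ hx hy =>
    convert Submodule.add_mem _ hx hy using 1
    noncomm_ring
  | smul t x _ hx =>
    rw [mul_smul_comm, smul_mul_assoc, ← smul_sub]
    exact Submodule.smul_mem _ t hx

end defs

section engel

variable {K M : Type*} [Field K] [AddCommGroup M] [Module K M] [FiniteDimensional K M]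

/-- powers of a space of endomorphisms applied to the whole space -/
def Gj (I : Submodule K (End K M)) : ℕ → Submodule K M
  | 0 => ⊤
  | j + 1 => Submodule.span K {v | ∃ x ∈ I, ∃ w ∈ Gj I j, v = x w}

omit [FiniteDimensional K M] in
theorem Gj_stable {L I : Submodule K (End K M)}
    (hI : ∀ l ∈ L, ∀ x ∈ I, l * x - x * l ∈ I) (j : ℕ) :
    ∀ l ∈ L, ∀ v ∈ Gj I j, l v ∈ Gj I j := by
  induction j with
  | zero => intro l _ v _; trivial
  | succ j ih =>
    intro l hl v hv
    unfold Gj at hv
    induction hv using Submodule.span_induction with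
    | mem v hv =>
      obtain ⟨x, hx, w, hw, rfl⟩ := hv
      have h1 : l (x w) = (l * x - x * l) w + x (l w) := by
        rw [LinearMap.sub_apply, Module.End.mul_apply, Module.End.mul_apply]; abel
      rw [h1]
      exact Submodule.add_mem _ (Submodule.subset_span ⟨_, hI l hl x hx, w, hw, rfl⟩)
        (Submodule.subset_span ⟨x, hx, _, ih l hl w hw, rfl⟩)
    | zero => rw [map_zero]; exact Submodule.zero_mem _
    | add x y _ _ hx hy => rw [map_add]; exact Submodule.add_mem _ hx hy
    | smul t x _ hx => rw [map_smul]; exact Submodule.smul_mem _ t hx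

omit [FiniteDimensional K M] in
theorem Gj_stable_adjoin {L I : Submodule K (End K M)}
    (hI : ∀ l ∈ L, ∀ x ∈ I, l * x - x * l ∈ I) (j : ℕ) {a : End K M}
    (ha : a ∈ Algebra.adjoin K (L : Set (End K M))) : ∀ v ∈ Gj I j, a v ∈ Gj I j := by
  induction ha using Algebra.adjoin_induction with
  | mem a ha => exact Gj_stable hI j a ha
  | algebraMap r => intro v hv; exact Submodule.smul_mem _ r hv
  | add a b _ _ ha hb => intro v hv; exact Submodule.add_mem _ (ha v hv) (hb v hv)
  | mul a b _ _ ha hb => intro v hv; exact ha _ (hb v hv)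

/-- Engel's theorem for a commutator closed space of nilpotent endomorphisms. -/
theorem Gj_bot {I : Submodule K (End K M)} (hI : Closed I) (hnil : ∀ x ∈ I, IsNilpotent x) :
    ∃ k, Gj I k = ⊥ := by
  let I' : LieSubalgebra K (End K M) := { I with lie_mem' := fun {a b} ha hb => hI a ha b hb }
  have h1 : LieModule.IsNilpotent I' M := by
    rw [LieModule.isNilpotent_iff_forall' (R := K)]
    intro x
    exact hnil x x.2
  obtain ⟨k, hk⟩ := (LieModule.isNilpotent_iff K I' M).1 h1
  refine ⟨k, ?_⟩
  have hle : ∀ j, Gj I j ≤ (LieModule.lowerCentralSeries K I' M j).toSubmodule := by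
    intro j
    induction j with
    | zero => intro v _; simp
    | succ j ih =>
      unfold Gj
      rw [Submodule.span_le]
      rintro _ ⟨x, hx, w, hw, rfl⟩
      rw [LieModule.lowerCentralSeries_succ]
      exact LieSubmodule.lie_mem_lie (I := (⊤ : LieIdeal K I')) (x := ⟨x, hx⟩)
        (by trivial) (ih hw)
  have := hle k
  rw [hk] at this
  exact le_bot_iff.1 this

theorem trace_zero {L I : Submodule K (End K M)} (hIL : Closed I)
    (hI : ∀ l ∈ L, ∀ x ∈ I, l * x - x * l ∈ I) (hnil : ∀ x ∈ I, IsNilpotent x)
    {x a : End K M} (hx : x ∈ I) (ha : a ∈ Algebra.adjoin K (L : Set (End K M))) :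
    LinearMap.trace K M (x * a) = 0 := by
  obtain ⟨k, hk⟩ := Gj_bot hIL hnil
  have hpow : ∀ j (v : M), ((x * a) ^ j) v ∈ Gj I j := by
    intro j
    induction j with
    | zero => intro v; trivial
    | succ j ih =>
      intro v
      rw [pow_succ', Module.End.mul_apply, Module.End.mul_apply]
      exact Submodule.subset_span ⟨x, hx, _, Gj_stable_adjoin hI j ha _ (ih v), rfl⟩
  have hn : IsNilpotent (x * a) := by
    refine ⟨k, LinearMap.ext fun v => ?_⟩
    have := hpow k v
    rw [hk] at this
    exact (Submodule.mem_bot K).1 this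
  exact (LinearMap.isNilpotent_trace_of_isNilpotent hn).eq_zero

end engel

section closedField

variable {K M : Type*} [Field K] [CharZero K] [IsAlgClosed K] [AddCommGroup M] [Module K M]
  [FiniteDimensional K M]

theorem comI_nil {L : Submodule K (End K M)} (hL : Closed L) {x : End K M} (hx : x ∈ comI L) :
    IsNilpotent x := by
  refine cartan_aux L hL (comI_le hL hx) fun y hy => ?_
  unfold comI at hx
  induction hx using Submodule.span_induction with
  | mem x hx =>
    obtain ⟨w, hw, z, hz, rfl⟩ := hx
    have h1 : (LinearMap.trace K M) ((w * z - z * w) * y) =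
        (LinearMap.trace K M) (z * (y * w - w * y)) := by
      rw [sub_mul, mul_sub, map_sub, map_sub]
      congr 1
      rw [mul_assoc, LinearMap.trace_mul_comm K w, mul_assoc]
    rw [h1]
    exact hz.2 _ (hy w hw)
  | zero => simp
  | add x y _ _ hx hy => rw [add_mul, map_add, hx, hy, add_zero]
  | smul t x _ hx => rw [smul_mul_assoc, map_smul, hx, smul_zero]

theorem kl_closed {L : Submodule K (End K M)} (hL : Closed L) {w z a : End K M} (hw : w ∈ L)
    (hz : Rad L z) (ha : a ∈ Algebra.adjoin K (L : Set (End K M))) :
    LinearMap.trace K M ((w * z - z * w) * a) = 0 :=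
  trace_zero (I := comI L) (fun _ ha _ hb => comI_lie hL (comI_le hL ha) hb)
    (fun _ hl _ hx => comI_lie hL hl hx) (fun x hx => comI_nil hL hx)
    (Submodule.subset_span ⟨w, hw, z, hz, rfl⟩) ha

end closedField

section general

variable {K M : Type*} [Field K] [CharZero K] [AddCommGroup M] [Module K M]
  [FiniteDimensional K M]

open scoped TensorProduct

/-- **Commutators with the radical of the trace form** of a commutator closed space `L` are
orthogonal to the algebra generated by `L`. -/
theorem kl {L : Submodule K (End K M)} (hL : Closed L) {w z a : End K M} (hw : w ∈ L)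
    (hz : Rad L z) (ha : a ∈ Algebra.adjoin K (L : Set (End K M))) :
    LinearMap.trace K M ((w * z - z * w) * a) = 0 := by
  let F := AlgebraicClosure K
  let φ : End K M →ₐ[K] End F (F ⊗[K] M) := Module.End.baseChangeHom K F M
  have hφtr : ∀ f : End K M, LinearMap.trace F (F ⊗[K] M) (φ f) =
      algebraMap K F (LinearMap.trace K M f) := fun f => LinearMap.trace_baseChange f F
  let L' : Submodule F (End F (F ⊗[K] M)) := Submodule.span F (φ '' (L : Set (End K M)))
  have hmem : ∀ u ∈ L, φ u ∈ L' := fun u hu => Submodule.subset_span ⟨u, hu, rfl⟩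
  have hL' : Closed L' := by
    intro a ha b hb
    induction ha using Submodule.span_induction with
    | mem a ha =>
      obtain ⟨a, ha, rfl⟩ := ha
      induction hb using Submodule.span_induction with
      | mem b hb =>
        obtain ⟨b, hb, rfl⟩ := hb
        rw [← map_mul, ← map_mul, ← map_sub]
        exact hmem _ (hL a ha b hb)
      | zero => simp
      | add x y _ _ hx hy =>
        convert Submodule.add_mem _ hx hy using 1
        noncomm_ring
      | smul t x _ hx =>
        rw [mul_smul_comm, smul_mul_assoc, ← smul_sub]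
        exact Submodule.smul_mem _ t hx
    | zero => simp
    | add x y _ _ hx hy =>
      convert Submodule.add_mem _ hx hy using 1
      noncomm_ring
    | smul t x _ hx =>
      rw [mul_smul_comm, smul_mul_assoc, ← smul_sub]
      exact Submodule.smul_mem _ t hx
  have hz' : Rad L' (φ z) := by
    refine ⟨hmem z hz.1, fun u hu => ?_⟩
    induction hu using Submodule.span_induction with
    | mem u hu =>
      obtain ⟨u, hu, rfl⟩ := hu
      rw [← map_mul, hφtr, hz.2 u hu, map_zero]
    | zero => simp
    | add x y _ _ hx hy => rw [mul_add, map_add, hx, hy, add_zero]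
    | smul t x _ hx => rw [mul_smul_comm, map_smul, hx, smul_zero]
  have ha' : φ a ∈ Algebra.adjoin F (L' : Set (End F (F ⊗[K] M))) := by
    induction ha using Algebra.adjoin_induction with
    | mem a ha => exact Algebra.subset_adjoin (hmem a ha)
    | algebraMap r =>
      rw [AlgHom.commutes, IsScalarTower.algebraMap_apply K F (End F (F ⊗[K] M))]
      exact Subalgebra.algebraMap_mem _ _
    | add a b _ _ ha hb => rw [map_add]; exact Subalgebra.add_mem _ ha hb
    | mul a b _ _ ha hb => rw [map_mul]; exact Subalgebra.mul_mem _ ha hb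
  have h := kl_closed hL' (hmem w hw) hz' ha'
  rw [← map_mul, ← map_mul, ← map_sub, ← map_mul, hφtr] at h
  exact (algebraMap K F).injective (h.trans (map_zero _).symm)

end general

end Pool.Agent.TH45.Gr
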