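import Pool.Agent.TH45.Gr.Tan

/-!
# Growth of the ranks of the powers on the layers of a flag
-/

set_option autoImplicit false

namespace Pool.Agent.TH45.Gr

open Module Finset Polynomial

section rank

variable {K U V : Type*} [Field K] [AddCommGroup U] [Module K U] [AddCommGroup V] [Module K V]
  [FiniteDimensional K V]

theorem exists_range_basis (c : U →ₗ[K] V) :
    ∃ u : Fin (finrank K (LinearMap.range c)) → U, LinearIndependent K (fun b => c (u b)) ∧
      Submodule.span K (Set.range fun b => c (u b)) = LinearMap.range c := by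
  let bas := Module.finBasis K (LinearMap.range c)
  have h : ∀ b, ∃ u, c u = (bas b : V) := fun b => (bas b).2
  choose u hu using h
  refine ⟨u, ?_, ?_⟩
  · have h1 := bas.linearIndependent.map' (Submodule.subtype _) (Submodule.ker_subtype _)
    have h2 : (fun b => c (u b)) = (Submodule.subtype (LinearMap.range c)) ∘ bas :=
      funext fun b => hu b
    rw [h2]
    exact h1
  · have h1 : (Set.range fun b => c (u b)) = (Submodule.subtype _) '' (Set.range bas) := by
      rw [← Set.range_comp]
      congr 1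
      funext b
      exact hu b
    rw [h1, Submodule.span_image, bas.span_eq, Submodule.map_top, Submodule.range_subtype]

theorem rank_mono (c : ℕ → U →ₗ[K] V) (k : ℕ) :
    ∃ P : K[X], P ≠ 0 ∧ P.natDegree ≤ finrank K V * k ∧ ∀ t : K, P.eval t ≠ 0 →
      finrank K (LinearMap.range (c 0)) ≤
        finrank K (LinearMap.range (∑ j ∈ range (k + 1), t ^ j • c j)) := by
  obtain ⟨u, hu, -⟩ := exists_range_basis (c 0)
  obtain ⟨P, hP0, hPd, hP⟩ := indep_poly (d := k) (fun b j => c j (u b)) hu
  refine ⟨P, hP0, hPd.trans (Nat.mul_le_mul_right _ (Submodule.finrank_le _)), fun t ht => ?_⟩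
  have h1 := hP t ht
  have h2 : (fun b => ∑ j ∈ range (k + 1), t ^ j • c j (u b)) =
      fun b => ((⟨(∑ j ∈ range (k + 1), t ^ j • c j) (u b), ⟨_, rfl⟩⟩ :
        LinearMap.range (∑ j ∈ range (k + 1), t ^ j • c j)) : V) := by
    funext b
    show _ = (∑ j ∈ range (k + 1), t ^ j • c j) (u b)
    rw [LinearMap.sum_apply]
    rfl
  rw [h2] at h1
  have h3 : LinearIndependent K (fun b => (⟨(∑ j ∈ range (k + 1), t ^ j • c j) (u b), ⟨_, rfl⟩⟩ :
        LinearMap.range (∑ j ∈ range (k + 1), t ^ j • c j))) :=
    LinearIndependent.of_comp (Submodule.subtype _) h1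
  have h4 := h3.fintype_card_le_finrank
  rwa [Fintype.card_fin] at h4

theorem rank_grow (c : ℕ → U →ₗ[K] V) (k : ℕ) (hk : c (k + 1) = 0) {v : U} (hv : c 0 v = 0)
    (hv1 : c 1 v ∉ LinearMap.range (c 0)) :
    ∃ P : K[X], P ≠ 0 ∧ P.natDegree ≤ (finrank K V + 1) * k ∧ ∀ t : K, P.eval t ≠ 0 → t ≠ 0 →
      finrank K (LinearMap.range (c 0)) <
        finrank K (LinearMap.range (∑ j ∈ range (k + 1), t ^ j • c j)) := by
  obtain ⟨u, hu, hus⟩ := exists_range_basis (c 0)
  let w : Fin (finrank K (LinearMap.range (c 0)) + 1) → ℕ → V :=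
    Fin.snoc (α := fun _ => ℕ → V) (fun b j => c j (u b)) (fun j => c (j + 1) v)
  have hw0 : (fun b => w b 0) = Fin.snoc (α := fun _ => V) (fun b => c 0 (u b)) (c 1 v) := by
    funext b
    refine Fin.lastCases ?_ (fun b => ?_) b
    · simp [w]
    · simp [w]
  have hind : LinearIndependent K (fun b => w b 0) := by
    rw [hw0, linearIndependent_finSnoc]
    refine ⟨hu, ?_⟩
    rw [hus]
    exact hv1
  obtain ⟨P, hP0, hPd, hP⟩ := indep_poly (d := k) w hind
  refine ⟨P, hP0, hPd.trans (Nat.mul_le_mul_right _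
    (Nat.succ_le_succ (Submodule.finrank_le _))), fun t ht ht0 => ?_⟩
  have h1 := hP t ht
  set H := ∑ j ∈ range (k + 1), t ^ j • c j with hH
  have hHv : ∑ j ∈ range (k + 1), t ^ j • c (j + 1) v = H (t⁻¹ • v) := by
    have h5 : H v = ∑ j ∈ range k, t ^ (j + 1) • c (j + 1) v := by
      rw [hH, LinearMap.sum_apply, Finset.sum_range_succ' _ k]
      simp only [LinearMap.smul_apply]
      rw [hv, smul_zero, add_zero]
    rw [map_smul, h5, Finset.sum_range_succ, hk, LinearMap.zero_apply, smul_zero,
      add_zero, Finset.smul_sum]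
    refine Finset.sum_congr rfl fun j _ => ?_
    rw [smul_smul, pow_succ', ← mul_assoc, inv_mul_cancel₀ ht0, one_mul]
  let u' : Fin (finrank K (LinearMap.range (c 0)) + 1) → U :=
    Fin.snoc (α := fun _ => U) u (t⁻¹ • v)
  have h2 : (fun b => ∑ j ∈ range (k + 1), t ^ j • w b j) =
      fun b => ((⟨H (u' b), ⟨_, rfl⟩⟩ : LinearMap.range H) : V) := by
    funext b
    refine Fin.lastCases ?_ (fun b => ?_) b
    · have e1 : w (Fin.last _) = fun j => c (j + 1) v := by simp [w]
      have e2 : u' (Fin.last _) = t⁻¹ • v := by simp [u']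
      rw [e1]
      show _ = H (u' (Fin.last _))
      rw [e2]
      exact hHv
    · have e1 : w b.castSucc = fun j => c j (u b) := by simp [w]
      have e2 : u' b.castSucc = u b := by simp [u']
      rw [e1]
      show _ = H (u' b.castSucc)
      rw [e2, hH, LinearMap.sum_apply]
      rfl
  rw [h2] at h1
  have h3 : LinearIndependent K (fun b => (⟨H (u' b), ⟨_, rfl⟩⟩ : LinearMap.range H)) :=
    LinearIndependent.of_comp (Submodule.subtype _) h1
  have h4 := h3.fintype_card_le_finrank
  rw [Fintype.card_fin] at h4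
  exact h4

end rank

section trace

variable {K V : Type*} [Field K] [AddCommGroup V] [Module K V] [FiniteDimensional K V]

theorem trace_eq_add (W : Submodule K V) (e : V →ₗ[K] V) (he : W ≤ W.comap e) :
    LinearMap.trace K V e = LinearMap.trace K W (e.restrict he)
      + LinearMap.trace K (V ⧸ W) (W.mapQ W e he) := by
  classical
  let m := Module.Free.ChooseBasisIndex K W
  let bW : Basis m K W := Module.Free.chooseBasis K W
  let n := Module.Free.ChooseBasisIndex K (V ⧸ W)
  let bQ : Basis n K (V ⧸ W) := Module.Free.chooseBasis K (V ⧸ W)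
  let b := Module.Basis.sumQuot bW bQ
  rw [LinearMap.trace_eq_matrix_trace K b, LinearMap.trace_eq_matrix_trace K bW,
    LinearMap.trace_eq_matrix_trace K bQ]
  rw [Matrix.trace, Fintype.sum_sum_type]
  congr 1
  · refine Finset.sum_congr rfl fun i _ => ?_
    simp only [Matrix.diag_apply, b, LinearMap.toMatrix_apply, Module.Basis.sumQuot_inl]
    apply Module.Basis.sumQuot_repr_inl_of_mem
  · refine Finset.sum_congr rfl fun i _ => ?_
    simp only [Matrix.diag_apply, LinearMap.toMatrix_apply, Module.Basis.sumQuot_repr_inr, b]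
    rw [← Module.Basis.sumQuot_inr bW bQ i, W.mapQ_apply]
    simp

end trace

end Pool.Agent.TH45.Gr
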