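import Pool.Agent.W559.Vf.E1

/-!
# Linear algebra for the growth of the ranks of powers along a line
-/

set_option autoImplicit false

namespace Pool.Agent.TH45.Gr

open Module Polynomial Finset

variable {K W : Type*} [Field K] [AddCommGroup W] [Module K W]

/-- `pc x y k j` is the coefficient of `t ^ j` in `(x + t y) ^ k`. -/
def pc (x y : End K W) : ℕ → ℕ → End K W
  | 0, 0 => 1
  | 0, _ + 1 => 0
  | k + 1, 0 => x * pc x y k 0
  | k + 1, j + 1 => x * pc x y k (j + 1) + y * pc x y k j

theorem pc_zero (x y : End K W) (k : ℕ) : pc x y k 0 = x ^ k := by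
  induction k with
  | zero => rfl
  | succ k ih => rw [pc, ih, pow_succ']

theorem pc_gt (x y : End K W) (k : ℕ) : ∀ j, k < j → pc x y k j = 0 := by
  induction k with
  | zero => intro j hj; obtain ⟨i, rfl⟩ : ∃ i, j = i + 1 := ⟨j - 1, by omega⟩; rfl
  | succ k ih =>
    intro j hj
    obtain ⟨i, rfl⟩ : ∃ i, j = i + 1 := ⟨j - 1, by omega⟩
    rw [pc, ih _ (by omega), ih _ (by omega), mul_zero, mul_zero, add_zero]

theorem pencil_pow (x y : End K W) (t : K) (k : ℕ) :
    (x + t • y) ^ k = ∑ j ∈ range (k + 1), t ^ j • pc x y k j := by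
  induction k with
  | zero => simp [pc]
  | succ k ih =>
    rw [pow_succ', ih, add_mul, Finset.sum_range_succ' _ (k + 1)]
    have h1 : ∑ j ∈ range (k + 1), t ^ (j + 1) • pc x y (k + 1) (j + 1) =
        (∑ j ∈ range (k + 1), t ^ (j + 1) • (x * pc x y k (j + 1))) +
          ∑ j ∈ range (k + 1), t ^ (j + 1) • (y * pc x y k j) := by
      rw [← Finset.sum_add_distrib]
      refine Finset.sum_congr rfl fun j _ => ?_
      rw [pc, smul_add]
    have h2 : ∑ j ∈ range (k + 1), t ^ (j + 1) • (y * pc x y k j) =
        t • y * ∑ j ∈ range (k + 1), t ^ j • pc x y k j := by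
      rw [Finset.mul_sum]
      refine Finset.sum_congr rfl fun j _ => ?_
      rw [smul_mul_smul_comm, pow_succ']
    have h3 : x * ∑ j ∈ range (k + 1), t ^ j • pc x y k j =
        (∑ j ∈ range (k + 1), t ^ (j + 1) • (x * pc x y k (j + 1))) +
          t ^ 0 • pc x y (k + 1) 0 := by
      rw [pc, Finset.mul_sum, Finset.sum_range_succ', Finset.sum_range_succ _ k,
        pc_gt x y k (k + 1) (Nat.lt_succ_self k), mul_zero, smul_zero, add_zero]
      congr 1
      · refine Finset.sum_congr rfl fun j _ => ?_
        rw [mul_smul_comm]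
      · rw [mul_smul_comm]
    rw [h1, h2, h3]
    abel

/-- Independence of vectors depending polynomially on `t` from the independence at `t = 0`. -/
theorem indep_poly {s d : ℕ} (c : Fin s → ℕ → W)
    (h0 : LinearIndependent K (fun b => c b 0)) :
    ∃ P : K[X], P ≠ 0 ∧ P.natDegree ≤ s * d ∧ ∀ t : K, P.eval t ≠ 0 →
      LinearIndependent K (fun b => ∑ j ∈ range (d + 1), t ^ j • c b j) := by
  classical
  have hinj : Function.Injective (Fintype.linearCombination K (fun b => c b 0)) :=
    LinearMap.ker_eq_bot.1 (by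
      rw [LinearMap.ker_eq_bot']
      intro g hg
      have := Fintype.linearIndependent_iff.1 h0 g (by
        rw [Fintype.linearCombination_apply] at hg; exact hg)
      funext i
      exact this i)
  obtain ⟨f, hf⟩ := LinearMap.exists_leftInverse_of_injective _ (LinearMap.ker_eq_bot.2 hinj)
  have hf0 : ∀ b a, f (c b 0) a = if a = b then 1 else 0 := by
    intro b a
    have h1 : c b 0 = Fintype.linearCombination K (fun b => c b 0) (Pi.single b 1) := by
      rw [Fintype.linearCombination_apply_single, one_smul]
    have h2 : f (c b 0) = Pi.single b 1 := by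
      rw [h1]
      exact LinearMap.congr_fun hf _
    rw [h2, Pi.single_apply]
  let M : Matrix (Fin s) (Fin s) K[X] :=
    Matrix.of fun a b => ∑ j ∈ range (d + 1), C (f (c b j) a) * X ^ j
  have hM : ∀ (t : K) a b, (M a b).eval t = f (∑ j ∈ range (d + 1), t ^ j • c b j) a := by
    intro t a b
    show eval t (∑ j ∈ range (d + 1), C (f (c b j) a) * X ^ j) = _
    rw [eval_finsetSum, map_sum, Finset.sum_apply]
    refine Finset.sum_congr rfl fun j _ => ?_
    rw [eval_mul, eval_C, eval_pow, eval_X, map_smul, Pi.smul_apply, smul_eq_mul, mul_comm]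
  have hdet : ∀ t : K, M.det.eval t =
      (Matrix.of fun a b => f (∑ j ∈ range (d + 1), t ^ j • c b j) a).det := by
    intro t
    have : (evalRingHom t) M.det = (M.map (evalRingHom t)).det := RingHom.map_det _ _
    refine this.trans ?_
    congr 1
    refine Matrix.ext fun a b => ?_
    exact hM t a b
  refine ⟨M.det, ?_, ?_, fun t ht => ?_⟩
  · intro h
    have h1 := hdet 0
    rw [h, eval_zero] at h1
    have h2 : (Matrix.of fun a b => f (∑ j ∈ range (d + 1), (0 : K) ^ j • c b j) a) =
        (1 : Matrix (Fin s) (Fin s) K) := by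
      refine Matrix.ext fun a b => ?_
      rw [Matrix.of_apply, Finset.sum_eq_single 0]
      · rw [pow_zero, one_smul, hf0, Matrix.one_apply]
      · intro j _ hj
        rw [zero_pow hj, zero_smul]
      · intro h; exact absurd (Finset.mem_range.2 (Nat.succ_pos d)) h
    rw [h2, Matrix.det_one] at h1
    exact zero_ne_one h1
  · rw [Matrix.det_apply]
    refine Polynomial.natDegree_sum_le_of_forall_le _ _ fun σ _ => ?_
    refine (Polynomial.natDegree_smul_le _ _).trans ?_
    refine (Polynomial.natDegree_prod_le _ _).trans ?_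
    refine (Finset.sum_le_card_nsmul _ _ d fun i _ => ?_).trans ?_
    · show (∑ j ∈ range (d + 1), C (f (c i j) (σ i)) * X ^ j : K[X]).natDegree ≤ d
      refine Polynomial.natDegree_sum_le_of_forall_le _ _ fun j hj => ?_
      refine (natDegree_C_mul_X_pow_le _ _).trans ?_
      exact Nat.lt_succ_iff.1 (Finset.mem_range.1 hj)
    · rw [Finset.card_univ, Fintype.card_fin, smul_eq_mul]
  · rw [hdet] at ht
    have h1 : LinearIndependent K
        (fun b => f (∑ j ∈ range (d + 1), t ^ j • c b j)) := by
      have := Matrix.linearIndependent_cols_of_det_ne_zero ht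
      exact this
    exact LinearIndependent.of_comp f h1

end Pool.Agent.TH45.Gr
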