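import Pool.Agent.TH45.Gr.Layer

/-!
# The potential of an endomorphism with respect to a flag
-/

set_option autoImplicit false

namespace Pool.Agent.TH45.Gr

open Module Finset Polynomial

variable {K W : Type*} [Field K] [AddCommGroup W] [Module K W] [FiniteDimensional K W]

/-- the sum of the dimensions of `x ^ k F_i + F_(i+1)`, `i < d`, `k ≤ d`, `d = dim W` -/
noncomputable def pot (F : ℕ → Submodule K W) (x : End K W) : ℕ :=
  ∑ i ∈ range (finrank K W), ∑ k ∈ range (finrank K W + 1),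
    finrank K ((F i).map (x ^ k) ⊔ F (i + 1) : Submodule K W)

theorem pot_le (F : ℕ → Submodule K W) (x : End K W) :
    pot F x ≤ finrank K W * ((finrank K W + 1) * finrank K W) := by
  unfold pot
  refine (Finset.sum_le_card_nsmul _ _ ((finrank K W + 1) * finrank K W) fun i _ => ?_).trans ?_
  · refine (Finset.sum_le_card_nsmul _ _ (finrank K W) fun k _ => Submodule.finrank_le _).trans ?_
    rw [Finset.card_range, smul_eq_mul]
  · rw [Finset.card_range, smul_eq_mul]

theorem finrank_sup_eq (F G : Submodule K W) (f : End K W) :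
    finrank K (F.map f ⊔ G : Submodule K W) =
      finrank K (LinearMap.range (G.mkQ ∘ₗ f ∘ₗ F.subtype)) + finrank K G := by
  let S := F.map f
  let φ : (S ⊔ G : Submodule K W) →ₗ[K] W ⧸ G := G.mkQ ∘ₗ (S ⊔ G).subtype
  have h1 := LinearMap.finrank_range_add_finrank_ker φ
  have h2 : LinearMap.range φ = LinearMap.range (G.mkQ ∘ₗ f ∘ₗ F.subtype) := by
    rw [LinearMap.range_comp, Submodule.range_subtype, Submodule.map_sup, LinearMap.range_comp,
      LinearMap.range_comp, Submodule.range_subtype]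
    have : G.map G.mkQ = ⊥ := by
      rw [eq_bot_iff]
      rintro _ ⟨g, hg, rfl⟩
      exact (Submodule.Quotient.mk_eq_zero G).2 hg
    rw [this, sup_bot_eq]
  have h3 : LinearMap.ker φ = G.comap (S ⊔ G).subtype := by
    rw [LinearMap.ker_comp, Submodule.ker_mkQ]
  have h4 : finrank K (G.comap (S ⊔ G).subtype) = finrank K G :=
    (Submodule.comapSubtypeEquivOfLe (le_sup_right : G ≤ S ⊔ G)).finrank_eq
  rw [h2, h3, h4] at h1
  exact h1.symm

/-- the coefficients of the powers, as maps from a layer -/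
def cf (F G : Submodule K W) (x y : End K W) (k j : ℕ) : F →ₗ[K] W ⧸ G :=
  G.mkQ ∘ₗ pc x y k j ∘ₗ F.subtype

omit [FiniteDimensional K W] in
theorem cf_sum (F G : Submodule K W) (x y : End K W) (k : ℕ) (t : K) :
    ∑ j ∈ range (k + 1), t ^ j • cf F G x y k j = G.mkQ ∘ₗ ((x + t • y) ^ k) ∘ₗ F.subtype := by
  apply LinearMap.ext
  intro v
  rw [LinearMap.sum_apply, LinearMap.comp_apply, LinearMap.comp_apply, pencil_pow,
    LinearMap.sum_apply, map_sum]
  refine Finset.sum_congr rfl fun j _ => ?_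
  rw [LinearMap.smul_apply, LinearMap.smul_apply, map_smul]
  rfl

theorem layer_mono (F G : Submodule K W) (x y : End K W) (k : ℕ) (hk : k ≤ finrank K W) :
    ∃ P : K[X], P ≠ 0 ∧ P.natDegree ≤ (finrank K W + 1) * finrank K W ∧ ∀ t : K, P.eval t ≠ 0 →
      finrank K (F.map (x ^ k) ⊔ G : Submodule K W) ≤
        finrank K (F.map ((x + t • y) ^ k) ⊔ G : Submodule K W) := by
  obtain ⟨P, hP0, hPd, hP⟩ := rank_mono (cf F G x y k) k
  refine ⟨P, hP0, hPd.trans ?_, fun t ht => ?_⟩
  · exact Nat.mul_le_mul ((Submodule.finrank_quotient_le G).trans (Nat.le_succ _)) hk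
  · rw [finrank_sup_eq, finrank_sup_eq, ← cf_sum]
    have := hP t ht
    have h0 : cf F G x y k 0 = G.mkQ ∘ₗ (x ^ k) ∘ₗ F.subtype := by
      unfold cf; rw [pc_zero]
    rw [h0] at this
    exact Nat.add_le_add_right this _

theorem layer_grow (F G : Submodule K W) (x y : End K W) (k : ℕ) (hk : k ≤ finrank K W)
    {v : W} (hvF : v ∈ F) (hv : (x ^ k) v ∈ G) (hv1 : pc x y k 1 v ∉ F.map (x ^ k) ⊔ G) :
    ∃ P : K[X], P ≠ 0 ∧ P.natDegree ≤ (finrank K W + 1) * finrank K W ∧
      ∀ t : K, P.eval t ≠ 0 → t ≠ 0 →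
      finrank K (F.map (x ^ k) ⊔ G : Submodule K W) <
        finrank K (F.map ((x + t • y) ^ k) ⊔ G : Submodule K W) := by
  have h0 : cf F G x y k 0 = G.mkQ ∘ₗ (x ^ k) ∘ₗ F.subtype := by
    unfold cf; rw [pc_zero]
  have a1 : cf F G x y k (k + 1) = 0 := by
    apply LinearMap.ext
    intro u
    show G.mkQ (pc x y k (k + 1) (u : W)) = 0
    rw [pc_gt x y k (k + 1) (Nat.lt_succ_self k), LinearMap.zero_apply, map_zero]
  have a2 : cf F G x y k 0 ⟨v, hvF⟩ = 0 := by
    rw [h0]
    exact (Submodule.Quotient.mk_eq_zero G).2 hv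
  have a3 : cf F G x y k 1 ⟨v, hvF⟩ ∉ LinearMap.range (cf F G x y k 0) := by
    rintro ⟨⟨w, hw⟩, hw2⟩
    apply hv1
    rw [h0] at hw2
    have h3 : G.mkQ (pc x y k 1 v - (x ^ k) w) = 0 := by
      rw [map_sub, sub_eq_zero]
      exact hw2.symm
    rw [Submodule.mkQ_apply, Submodule.Quotient.mk_eq_zero] at h3
    have h4 : pc x y k 1 v = (x ^ k) w + (pc x y k 1 v - (x ^ k) w) := by abel
    rw [h4]
    exact Submodule.add_mem_sup ⟨w, hw, rfl⟩ h3
  obtain ⟨P, hP0, hPd, hP⟩ := rank_grow (cf F G x y k) k a1 a2 a3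
  refine ⟨P, hP0, hPd.trans ?_, fun t ht ht0 => ?_⟩
  · exact Nat.mul_le_mul (Nat.succ_le_succ (Submodule.finrank_quotient_le G)) hk
  · rw [finrank_sup_eq, finrank_sup_eq, ← cf_sum]
    have := hP t ht ht0
    rw [h0] at this
    exact Nat.add_lt_add_right this _

/-- growth of the potential -/
theorem pot_grow (F : ℕ → Submodule K W) (x y : End K W) {i k : ℕ} (hi : i < finrank K W)
    (hk : k ≤ finrank K W) {v : W} (hvF : v ∈ F i) (hv : (x ^ k) v ∈ F (i + 1))
    (hv1 : pc x y k 1 v ∉ (F i).map (x ^ k) ⊔ F (i + 1)) :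
    ∃ P : K[X], P ≠ 0 ∧
      P.natDegree ≤ finrank K W * ((finrank K W + 1) * ((finrank K W + 1) * finrank K W)) + 1 ∧
      ∀ t : K, P.eval t ≠ 0 → pot F x < pot F (x + t • y) := by
  classical
  have h : ∀ a b : ℕ, ∃ P : K[X], P ≠ 0 ∧ P.natDegree ≤ (finrank K W + 1) * finrank K W ∧
      (b ≤ finrank K W → ∀ t : K, P.eval t ≠ 0 → t ≠ 0 →
        finrank K ((F a).map (x ^ b) ⊔ F (a + 1) : Submodule K W) +
          (if a = i ∧ b = k then 1 else 0) ≤
        finrank K ((F a).map ((x + t • y) ^ b) ⊔ F (a + 1) : Submodule K W)) := by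
    intro a b
    by_cases hb : b ≤ finrank K W
    · by_cases hab : a = i ∧ b = k
      · obtain ⟨rfl, rfl⟩ := hab
        obtain ⟨P, h1, h2, h3⟩ := layer_grow (F a) (F (a + 1)) x y b hk hvF hv hv1
        refine ⟨P, h1, h2, fun _ t ht ht0 => ?_⟩
        rw [if_pos ⟨rfl, rfl⟩]
        exact h3 t ht ht0
      · obtain ⟨P, h1, h2, h3⟩ := layer_mono (F a) (F (a + 1)) x y b hb
        refine ⟨P, h1, h2, fun _ t ht _ => ?_⟩
        rw [if_neg hab, add_zero]
        exact h3 t ht
    · exact ⟨1, one_ne_zero, by simp, fun h => absurd h hb⟩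
  choose P hP0 hPd hP using h
  refine ⟨(∏ a ∈ range (finrank K W), ∏ b ∈ range (finrank K W + 1), P a b) * X, ?_, ?_,
    fun t ht => ?_⟩
  · refine mul_ne_zero ?_ X_ne_zero
    exact Finset.prod_ne_zero_iff.2 fun a _ => Finset.prod_ne_zero_iff.2 fun b _ => hP0 a b
  · refine natDegree_mul_le.trans (Nat.add_le_add ?_ natDegree_X_le)
    refine (natDegree_prod_le _ _).trans ?_
    refine (Finset.sum_le_card_nsmul _ _
      ((finrank K W + 1) * ((finrank K W + 1) * finrank K W)) fun a _ => ?_).trans ?_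
    · refine (natDegree_prod_le _ _).trans ?_
      refine (Finset.sum_le_card_nsmul _ _ ((finrank K W + 1) * finrank K W)
        fun b _ => hPd a b).trans ?_
      rw [Finset.card_range, smul_eq_mul]
    · rw [Finset.card_range, smul_eq_mul]
  · rw [eval_mul, eval_X, eval_prod] at ht
    have ht0 : t ≠ 0 := right_ne_zero_of_mul ht
    have ht1 : ∀ a ∈ range (finrank K W), ∀ b ∈ range (finrank K W + 1), (P a b).eval t ≠ 0 := by
      intro a ha b hb
      have h1 := Finset.prod_ne_zero_iff.1 (left_ne_zero_of_mul ht) a ha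
      rw [eval_prod] at h1
      exact Finset.prod_ne_zero_iff.1 h1 b hb
    have hle : ∀ a ∈ range (finrank K W), ∀ b ∈ range (finrank K W + 1),
        finrank K ((F a).map (x ^ b) ⊔ F (a + 1) : Submodule K W) ≤
        finrank K ((F a).map ((x + t • y) ^ b) ⊔ F (a + 1) : Submodule K W) := by
      intro a ha b hb
      exact (Nat.le_add_right _ _).trans
        (hP a b (Nat.lt_succ_iff.1 (Finset.mem_range.1 hb)) t (ht1 a ha b hb) ht0)
    unfold pot
    refine Finset.sum_lt_sum (fun a ha => Finset.sum_le_sum (hle a ha))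
      ⟨i, Finset.mem_range.2 hi, Finset.sum_lt_sum (hle i (Finset.mem_range.2 hi))
        ⟨k, Finset.mem_range.2 (Nat.lt_succ_of_le hk), ?_⟩⟩
    have := hP i k hk t (ht1 i (Finset.mem_range.2 hi) k
      (Finset.mem_range.2 (Nat.lt_succ_of_le hk))) ht0
    rw [if_pos ⟨rfl, rfl⟩] at this
    exact this

/-- a small natural number which is not a root -/
theorem exists_nat_eval_ne [CharZero K] {P : K[X]} (hP : P ≠ 0) {B : ℕ} (hB : P.natDegree ≤ B) :
    ∃ t : ℕ, t ≤ B ∧ P.eval (t : K) ≠ 0 := by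
  classical
  by_contra hcon
  push Not at hcon
  have h1 : ((Finset.range (B + 1)).image (fun t : ℕ => (t : K))) ⊆ P.roots.toFinset := by
    intro a ha
    obtain ⟨t, ht, rfl⟩ := Finset.mem_image.1 ha
    rw [Multiset.mem_toFinset, mem_roots hP]
    exact hcon t (Nat.lt_succ_iff.1 (Finset.mem_range.1 ht))
  have h2 := Finset.card_le_card h1
  rw [Finset.card_image_of_injective _ Nat.cast_injective, Finset.card_range] at h2
  have h3 := (Multiset.toFinset_card_le P.roots).trans (card_roots' P)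
  omega

end Pool.Agent.TH45.Gr
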