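import Pool.Agent.TH45.Gr.Cyc
import Pool.Agent.TH45.Gr.Flag

/-!
# The local search for elements which are not nilpotent
-/

set_option autoImplicit false

namespace Pool.Agent.TH45.Gr

open Module

section dual

variable {K W : Type*} [Field K] [AddCommGroup W] [Module K W] [FiniteDimensional K W]

/-- duality for the trace form of the algebra generated by `T` -/
theorem exists_comm {T : Submodule K (End K W)} {x y : End K W} (hx : x ∈ T) (hy : y ∈ T)
    (h : ∀ c ∈ Algebra.adjoin K (T : Set (End K W)), c * x - x * c ∈ NN T →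
      LinearMap.trace K W (c * y) = 0) :
    ∃ a ∈ Algebra.adjoin K (T : Set (End K W)), ∃ ν ∈ NN T, y = (a * x - x * a) + ν := by
  classical
  let A : Submodule K (End K W) :=
    Subalgebra.toSubmodule (Algebra.adjoin K (T : Set (End K W)))
  have hxA : x ∈ A := Algebra.subset_adjoin hx
  have hyA : y ∈ A := Algebra.subset_adjoin hy
  have hmulA : ∀ a ∈ A, ∀ b ∈ A, a * b ∈ A := fun a ha b hb => Subalgebra.mul_mem _ ha hb
  let δ : End K W →ₗ[K] End K W := LinearMap.mulRight K x - LinearMap.mulLeft K x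
  have hδ : ∀ u, δ u = u * x - x * u := fun u => rfl
  let P : Submodule K (End K W) := A.map δ ⊔ NN T
  by_contra hcon
  have hyP : y ∉ P := by
    intro hy
    obtain ⟨_, ⟨a, ha, rfl⟩, ν, hν, hsum⟩ := Submodule.mem_sup.1 hy
    exact hcon ⟨a, ha, ν, hν, hsum.symm⟩
  obtain ⟨f, hfy, hfP⟩ := Submodule.exists_dual_map_eq_bot_of_notMem hyP inferInstance
  have hf0 : ∀ p ∈ P, f p = 0 := by
    intro p hp
    have : f p ∈ P.map f := ⟨p, hp, rfl⟩
    rw [hfP] at this
    exact (Submodule.mem_bot K).1 this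
  let Ψ : A →ₗ[K] Dual K A :=
    LinearMap.mk₂ K (fun (y : A) (z : A) => LinearMap.trace K W ((z : End K W) * y))
      (fun y y' z => by
        rw [Submodule.coe_add, mul_add, map_add])
      (fun c y z => by
        rw [Submodule.coe_smul, mul_smul_comm, map_smul])
      (fun y z z' => by
        rw [Submodule.coe_add, add_mul, map_add])
      (fun c y z => by
        rw [Submodule.coe_smul, smul_mul_assoc, map_smul])
  have hker : f ∘ₗ A.subtype ∈ (LinearMap.ker Ψ).dualAnnihilator := by
    rw [Submodule.mem_dualAnnihilator]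
    intro y hy
    have hy2 : (y : End K W) ∈ NN T := by
      refine ⟨y.2, fun z hz => ?_⟩
      have := LinearMap.congr_fun (LinearMap.mem_ker.1 hy) ⟨z, hz⟩
      rw [LinearMap.trace_mul_comm]
      exact this
    exact hf0 _ (Submodule.mem_sup_right hy2)
  rw [← LinearMap.range_dualMap_eq_dualAnnihilator_ker] at hker
  obtain ⟨g, hg⟩ := hker
  obtain ⟨z, hz⟩ := (Module.evalEquiv K A).surjective g
  have hfz : ∀ y ∈ A, f y = LinearMap.trace K W ((z : End K W) * y) := by
    intro y hy
    have h1 := LinearMap.congr_fun hg ⟨y, hy⟩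
    rw [← hz] at h1
    exact h1.symm
  apply hfy
  rw [hfz y hyA]
  refine h z z.2 ⟨?_, fun a ha => ?_⟩
  · exact A.sub_mem (hmulA _ z.2 _ hxA) (hmulA _ hxA _ z.2)
  · have h1 := hfz _ (A.sub_mem (hmulA _ ha _ hxA) (hmulA _ hxA _ ha))
    have h2 : f (a * x - x * a) = 0 := hf0 _ (Submodule.mem_sup_left ⟨a, ha, rfl⟩)
    rw [h2] at h1
    have e1 : LinearMap.trace K W ((z : End K W) * (a * x)) =
        LinearMap.trace K W ((x * z) * a) := by
      rw [← mul_assoc, LinearMap.trace_mul_comm, mul_assoc]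
    rw [mul_sub, map_sub, e1, ← mul_assoc (z : End K W) x a] at h1
    rw [sub_mul, map_sub]
    linear_combination h1

end dual

section search

variable {K V : Type*} [Field K] [CharZero K] [AddCommGroup V] [Module K V]
  [FiniteDimensional K V]

/-- the critical nilpotent elements -/
theorem exists_dual {T : Submodule K (End K V)} {m : ℕ} (hm : 2 ≤ m) (hcl : br T m ≤ T)
    {x : End K V} (hx : x ∈ T) (hxn : IsNilpotent x) {y0 : End K V} (hy0 : y0 ∈ T)
    (hy0n : ¬ IsNilpotent y0) :
    ∃ c ∈ Hom T m (-1), c * x - x * c ∈ Nk T m 0 ∧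
      ∃ y ∈ T, LinearMap.trace K V (c * y) ≠ 0 := by
  classical
  have : NeZero m := ⟨by omega⟩
  by_contra hcon
  push Not at hcon
  have key := nil_of_crit (T := T.map (gr (1 : ZMod m))) hm (br_cover hcl)
    (E := fun k => LinearMap.range (gr k : End K V →ₗ[K] End K (ZMod m → V))) ?_ ?_ ?_
    (x := gr 1 x) ⟨x, hx, rfl⟩ ?_ ?_ (gr 1 y0) ⟨y0, hy0, rfl⟩
  · apply hy0n
    obtain ⟨q, hq⟩ := key
    rw [gr_pow] at hq
    exact ⟨q, gr_injective _ (hq.trans (map_zero _).symm)⟩
  · rintro _ ⟨a, _, rfl⟩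
    exact ⟨a, rfl⟩
  · rintro i j _ ⟨a, rfl⟩ _ ⟨b, rfl⟩
    exact ⟨a * b, (gr_mul _ _ _ _).symm⟩
  · rintro i hi _ ⟨a, rfl⟩
    rw [trace_gr, if_neg hi]
  · obtain ⟨q, hq⟩ := hxn
    exact ⟨q, by rw [gr_pow, hq, map_zero]⟩
  · rintro _ ⟨y, hy, rfl⟩
    refine exists_comm ⟨x, hx, rfl⟩ ⟨y, hy, rfl⟩ fun f hf hfx => ?_
    rw [trace_mul_gr hf]
    rw [hcon (cmp (-1) f) (cmp_mem hf _) ?_ y hy, mul_zero]
    have hxH : x ∈ Hom T m 1 := Hom.of_mem hx
    have hcH : cmp (-1) f ∈ Hom T m (-1) := cmp_mem hf _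
    refine ⟨?_, fun b hb => ?_⟩
    · have h1 := Hom.mul hcH hxH
      have h2 := Hom.mul hxH hcH
      rw [show (-1 : ZMod m) + 1 = 0 by ring] at h1
      rw [show (1 : ZMod m) + -1 = 0 by ring] at h2
      exact Submodule.sub_mem _ h1 h2
    · rw [neg_zero] at hb
      have h1 := hfx.2 (gr 0 b) (gr_mem hb)
      have h2 : f * gr (1 : ZMod m) x - gr (1 : ZMod m) x * f ∈ Ad T m := hfx.1
      rw [trace_mul_gr h2] at h1
      have hm0 : (m : K) ≠ 0 := Nat.cast_ne_zero.2 (by omega)
      have h3 := (mul_eq_zero.1 h1).resolve_left hm0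
      have h4 : cmp (-0 : ZMod m) (f * gr (1 : ZMod m) x - gr (1 : ZMod m) x * f) =
          cmp (-1) f * x - x * cmp (-1) f := by
        have h5 : ∀ g ∈ Submodule.span K {g : End K (ZMod m → V) |
            ∃ r : ZMod m, ∃ a ∈ Hom T m r, g = gr r a},
            cmp (-0 : ZMod m) (g * gr (1 : ZMod m) x - gr (1 : ZMod m) x * g) =
            cmp (-1) g * x - x * cmp (-1) g := by
          intro g hg
          induction hg using Submodule.span_induction with
          | mem g hg =>
            obtain ⟨r, a, ha, rfl⟩ := hg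
            rw [gr_mul, gr_mul, map_sub, cmp_gr, cmp_gr, cmp_gr]
            by_cases h : (-1 : ZMod m) = r
            · rw [if_pos h, if_pos (by rw [← h]; ring), if_pos (by rw [← h]; ring)]
            · have h6 : ¬ ((-0 : ZMod m) = r + 1) := fun h' => h (by linear_combination h')
              have h7 : ¬ ((-0 : ZMod m) = 1 + r) := fun h' => h (by linear_combination h')
              rw [if_neg h, if_neg h6, if_neg h7, zero_mul, mul_zero]
          | zero => simp
          | add g g' _ _ hg hg' =>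
            rw [add_mul, mul_add, add_sub_add_comm, map_add, hg, hg', map_add]
            noncomm_ring
          | smul t g _ hg =>
            rw [smul_mul_assoc, mul_smul_comm, ← smul_sub, map_smul, hg, map_smul,
              smul_mul_assoc, mul_smul_comm, ← smul_sub]
        exact h5 f (mem_span_of_adjoin hf)
      rw [h4] at h3
      exact h3

/-- the bound for the step length -/
def bound (d : ℕ) : ℕ := d * ((d + 1) * ((d + 1) * d)) + 1

/-- **The local search.**  Let `T` be closed under `(m+1)`-fold commutators, spanned by the `Y i`,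
and let `x ∈ T` be nilpotent.  Either all elements of `T` are nilpotent, or one of the points
`x + t Y_i`, `t ≤ bound`, has a larger potential. -/
theorem search {T : Submodule K (End K V)} {m : ℕ} (hm : 2 ≤ m) (hcl : br T m ≤ T)
    {ι : Type*} {Y : ι → End K V} (hY : Submodule.span K (Set.range Y) = T)
    {x : End K V} (hx : x ∈ T) (hxn : IsNilpotent x) :
    (∀ y ∈ T, IsNilpotent y) ∨ ∃ i, ∃ t : ℕ, t ≤ bound (finrank K V) ∧
      pot (Fl T m) x < pot (Fl T m) (x + (t : K) • Y i) := by
  classical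
  have : NeZero m := ⟨by omega⟩
  by_cases hall : ∀ y ∈ T, IsNilpotent y
  · exact Or.inl hall
  right
  push Not at hall
  obtain ⟨y0, hy0, hy0n⟩ := hall
  obtain ⟨c, hc, hcx, y, hy, htr⟩ := exists_dual hm hcl hx hxn hy0 hy0n
  obtain ⟨i, hi⟩ : ∃ i, LinearMap.trace K V (c * Y i) ≠ 0 := by
    by_contra hcon
    push Not at hcon
    apply htr
    rw [← hY] at hy
    clear htr
    induction hy using Submodule.span_induction with
    | mem y hy => obtain ⟨i, rfl⟩ := hy; exact hcon i
    | zero => rw [mul_zero, map_zero]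
    | add a b _ _ ha hb => rw [mul_add, map_add, ha, hb, add_zero]
    | smul t a _ ha => rw [mul_smul_comm, map_smul, ha, smul_zero]
  have hYi : Y i ∈ T := by rw [← hY]; exact Submodule.subset_span ⟨i, rfl⟩
  have hd : Fl T m (finrank K V) = ⊥ := Fl_finrank
  obtain ⟨j, hj, k, hk, v, hv, hv0, hv1⟩ := flag_grow (Fl T m) rfl Fl_le hd
    (x := x) (y := Y i) (c := c) (fun j => Fl_stable (Hom.of_mem hx) j)
    (fun j => Fl_stable (Hom.of_mem hYi) j) (fun j => Fl_stable hc j)
    (fun j => Fl_step hcx j) hxn hi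
  obtain ⟨P, hP0, hPd, hP⟩ := pot_grow (Fl T m) x (Y i) hj hk hv hv0 hv1
  obtain ⟨t, ht, htP⟩ := exists_nat_eval_ne hP0 hPd
  exact ⟨i, t, ht, hP t htP⟩

end search

end Pool.Agent.TH45.Gr
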