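import Pool.Agent.TH45.Gr.Lin

/-!
# Tangent vectors to the nilpotent orbits
-/

set_option autoImplicit false

namespace Pool.Agent.TH45.Gr

open Module Finset

variable {K W : Type*} [Field K] [AddCommGroup W] [Module K W] [FiniteDimensional K W]

theorem tangent {x y : End K W} (hx : IsNilpotent x)
    (h : ∀ (k : ℕ), k ≤ finrank K W → ∀ (v : W), (x ^ k) v = 0 →
      pc x y k 1 v ∈ LinearMap.range (x ^ k)) :
    ∃ g : End K W, y = g * x - x * g := by
  classical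
  obtain ⟨q, hq⟩ := hx
  have hP : Pool.Agent.W559.Vf.Pj (ι := Unit) x (fun _ => (LinearMap.id : W →ₗ[K] W)) :=
    ⟨fun v => by simp, fun i j v hij => absurd (Subsingleton.elim i j) hij, fun i v => rfl⟩
  obtain ⟨β, _, l, χ, Y, hl, -, hN, hli, hspan⟩ := Pool.Agent.W559.Vf.chains_aux hP hq
    (finrank K (⊤ : Submodule K W)) ⊤ le_rfl (fun _ _ => trivial) (fun _ _ _ => trivial)
  let bas : Basis (Σ b, Fin (l b)) K W := Basis.mk hli hspan.ge
  have hbas : ∀ p, bas p = (x ^ (p.2 : ℕ)) (Y p.1) := fun p => by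
    rw [Basis.mk_apply]
  have hlb : ∀ b, l b ≤ finrank K W := by
    intro b
    have h1 : Fintype.card (Σ b, Fin (l b)) = finrank K W := by
      rw [Module.finrank_eq_card_basis bas]
    rw [← h1]
    have h2 := Fintype.card_le_of_injective (fun a : Fin (l b) => (⟨b, a⟩ : Σ b, Fin (l b)))
      (fun a a' haa => by simpa using haa)
    rwa [Fintype.card_fin] at h2
  have he : ∀ b, ∃ e, (x ^ l b) e = -pc x y (l b) 1 (Y b) := by
    intro b
    obtain ⟨e, he⟩ := h (l b) (hlb b) (Y b) (hN b)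
    exact ⟨-e, by rw [map_neg, he]⟩
  choose e he using he
  let g : End K W := bas.constr K fun p => (x ^ (p.2 : ℕ)) (e p.1) + pc x y p.2 1 (Y p.1)
  have hg : ∀ b (a : ℕ), a ≤ l b → g ((x ^ a) (Y b)) = (x ^ a) (e b) + pc x y a 1 (Y b) := by
    intro b a ha
    rcases ha.lt_or_eq with h1 | h1
    · have h2 := hbas ⟨b, ⟨a, h1⟩⟩
      have h3 : g (bas ⟨b, ⟨a, h1⟩⟩) = _ := bas.constr_basis K _ _
      rw [h2] at h3
      exact h3
    · subst h1
      rw [hN, map_zero, he]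
      abel
  refine ⟨g, bas.ext fun p => ?_⟩
  obtain ⟨b, a⟩ := p
  rw [hbas]
  have h1 := hg b (a + 1) a.2
  have h2 := hg b a a.2.le
  rw [LinearMap.sub_apply, Module.End.mul_apply, Module.End.mul_apply]
  show y ((x ^ (a : ℕ)) (Y b)) = g (x ((x ^ (a : ℕ)) (Y b))) - x (g ((x ^ (a : ℕ)) (Y b)))
  rw [← Module.End.mul_apply x, ← pow_succ', h1, h2, map_add, ← Module.End.mul_apply x,
    ← pow_succ']
  show _ = (x ^ ((a : ℕ) + 1)) (e b) + (x * pc x y a 1 + y * pc x y a 0) (Y b) - _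
  rw [LinearMap.add_apply, Module.End.mul_apply, Module.End.mul_apply, pc_zero]
  abel

theorem exists_grow {x y c : End K W} (hx : IsNilpotent x) (hc : c * x = x * c)
    (htr : LinearMap.trace K W (c * y) ≠ 0) :
    ∃ (k : ℕ) (v : W), k ≤ finrank K W ∧ (x ^ k) v = 0 ∧
      pc x y k 1 v ∉ LinearMap.range (x ^ k) := by
  by_contra hcon
  push Not at hcon
  replace hcon : ∀ (k : ℕ), k ≤ finrank K W → ∀ (v : W), (x ^ k) v = 0 →
      pc x y k 1 v ∈ LinearMap.range (x ^ k) := fun k hk v hv => hcon k v hk hv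
  obtain ⟨g, hg⟩ := tangent hx hcon
  apply htr
  rw [hg, mul_sub, map_sub, sub_eq_zero, ← mul_assoc, ← mul_assoc, hc, LinearMap.trace_mul_comm,
    ← mul_assoc]

omit [FiniteDimensional K W] in
/-- compatibility of the coefficients of powers with a map -/
theorem pc_map {V : Type*} [AddCommGroup V] [Module K V] {x y : End K W} {x' y' : End K V}
    (F : Submodule K W) (hx : ∀ v ∈ F, x v ∈ F) (hy : ∀ v ∈ F, y v ∈ F) (π : F →ₗ[K] V)
    (hπx : ∀ v (hv : v ∈ F), x' (π ⟨v, hv⟩) = π ⟨x v, hx v hv⟩)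
    (hπy : ∀ v (hv : v ∈ F), y' (π ⟨v, hv⟩) = π ⟨y v, hy v hv⟩) (k : ℕ) :
    ∀ j, ∃ hj : ∀ v ∈ F, pc x y k j v ∈ F,
      ∀ v (hv : v ∈ F), pc x' y' k j (π ⟨v, hv⟩) = π ⟨pc x y k j v, hj v hv⟩ := by
  induction k with
  | zero =>
    intro j
    cases j with
    | zero => exact ⟨fun v hv => hv, fun v hv => rfl⟩
    | succ j => exact ⟨fun v _ => F.zero_mem, fun v hv => (map_zero π).symm⟩
  | succ k ih =>
    intro j
    cases j with
    | zero =>
      obtain ⟨h1, h2⟩ := ih 0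
      refine ⟨fun v hv => hx _ (h1 v hv), fun v hv => ?_⟩
      show x' (pc x' y' k 0 (π ⟨v, hv⟩)) = _
      rw [h2 v hv, hπx]
      rfl
    | succ j =>
      obtain ⟨h1, h2⟩ := ih (j + 1)
      obtain ⟨h3, h4⟩ := ih j
      refine ⟨fun v hv => F.add_mem (hx _ (h1 v hv)) (hy _ (h3 v hv)), fun v hv => ?_⟩
      show x' (pc x' y' k (j + 1) (π ⟨v, hv⟩)) + y' (pc x' y' k j (π ⟨v, hv⟩)) = _
      rw [h2 v hv, h4 v hv, hπx, hπy, ← map_add]
      rfl

end Pool.Agent.TH45.Gr
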